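import Pool.Agent.ZU.Rec

/-! # ZU: levels, collection, ordinals, choice

(problem MP_ba5606_gt, project ZU; no sorry in this file)

`VV x` is the level `V_α`, `α` the rank of `x`. `collection` is the collection scheme. `Ord x`: `x` is an
ordinal. `WO N`: every set is covered by the range of a function on an ordinal; `choice` is the axiom of
choice for definable relations. -/

universe v

namespace ZU

open STP STP.Fml

variable {N : Type v} [ZM N]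

/-! ### Levels -/

/-- the union of all `pw (VV y)`, `y ∈ x` -/
noncomputable def VV (x : N) : N := Rec (fun x f => bU x fun y => pw (ap f y)) x

theorem df_VVG : DF fun v : ℕ → N => (fun x f => bU x fun y => pw (ap f y)) (v 0) (v 1) := by
  simp (maxDischargeDepth := 99)

@[simp] theorem df_VV {s : (ℕ → N) → N} (hs : DF s) : DF fun v => VV (s v) :=
  df1 (F := VV) (by
    unfold VV
    refine df_rec (G := fun x f _ => bU x fun y => pw (ap f y)) ?_ (df_var 0)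
    simp (maxDischargeDepth := 99)) hs

theorem mem_VV {x z : N} : z ∈ VV x ↔ ∃ y, y ∈ x ∧ z ⊆ VV y := by
  have h1 : VV x = bU x fun y => pw (ap (lam x VV) y) := by
    unfold VV
    exact rec_eq df_VVG x
  rw [h1, mem_bU (by simp (maxDischargeDepth := 99))]
  constructor
  · rintro ⟨y, hy, hz⟩
    rw [ap_lam (df_VV (df_var 0)) hy, mem_pw] at hz
    exact ⟨y, hy, hz⟩
  · rintro ⟨y, hy, hz⟩
    refine ⟨y, hy, ?_⟩
    rw [ap_lam (df_VV (df_var 0)) hy, mem_pw]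
    exact hz

theorem sub_VV (x : N) : x ⊆ VV x := by
  refine ind (P := fun x => x ⊆ VV x) ?_ x
  intro x ih y hy
  exact mem_VV.2 ⟨y, hy, ih y hy⟩

theorem VV_mono {x : N} : ∀ y, y ∈ x → VV y ⊆ VV x := by
  refine ind (P := fun x => ∀ y, y ∈ x → VV y ⊆ VV x) ?_ x
  intro x ih y hy u hu
  obtain ⟨w, hw, h1⟩ := mem_VV.1 hu
  exact mem_VV.2 ⟨y, hy, sub_trans h1 (ih y hy w hw)⟩

theorem VV_tr {x z : N} (h : z ∈ VV x) : z ⊆ VV x := by
  obtain ⟨y, hy, h1⟩ := mem_VV.1 h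
  exact sub_trans h1 (VV_mono y hy)

theorem VV_lin (x y : N) : VV x ⊆ VV y ∨ ∃ x', x' ∈ x ∧ VV y ⊆ VV x' := by
  suffices H : ∀ x : N, ∀ y : N, (VV x ⊆ VV y ∨ ∃ x', x' ∈ x ∧ VV y ⊆ VV x') ∧
      (VV y ⊆ VV x ∨ ∃ y', y' ∈ y ∧ VV x ⊆ VV y') from (H x y).1
  intro x
  refine ind (P := fun x => ∀ y : N, (VV x ⊆ VV y ∨ ∃ x', x' ∈ x ∧ VV y ⊆ VV x') ∧
      (VV y ⊆ VV x ∨ ∃ y', y' ∈ y ∧ VV x ⊆ VV y')) ?_ x
  intro x ih
  have h1 : ∀ y : N, VV x ⊆ VV y ∨ ∃ x', x' ∈ x ∧ VV y ⊆ VV x' := by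
    intro y
    by_cases hc : ∃ x', x' ∈ x ∧ VV y ⊆ VV x'
    · exact Or.inr hc
    · left
      intro u hu
      obtain ⟨x', hx', h2⟩ := mem_VV.1 hu
      rcases (ih x' hx' y).2 with h3 | ⟨y', hy', h3⟩
      · exact absurd ⟨x', hx', h3⟩ hc
      · exact mem_VV.2 ⟨y', hy', sub_trans h2 h3⟩
  intro y
  refine ⟨h1 y, ?_⟩
  by_cases hc : ∃ y', y' ∈ y ∧ VV x ⊆ VV y'
  · exact Or.inr hc
  · left
    intro u hu
    obtain ⟨y', hy', h2⟩ := mem_VV.1 hu
    rcases h1 y' with h3 | ⟨x', hx', h3⟩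
    · exact absurd ⟨y', hy', h3⟩ hc
    · exact mem_VV.2 ⟨x', hx', sub_trans h2 h3⟩

/-- the native rank -/
noncomputable def nrk (x : N) : Ordinal.{v} := @IsWellFounded.rank N ZM.E ⟨ZM.wf⟩ x

theorem nrk_lt {x y : N} (h : x ∈ y) : nrk x < nrk y :=
  @IsWellFounded.rank_lt_of_rel N x y ZM.E ⟨ZM.wf⟩ h

theorem nrk_le {x : N} {o : Ordinal.{v}} (h : ∀ y, y ∈ x → nrk y < o) : nrk x ≤ o := by
  unfold nrk
  rw [@IsWellFounded.rank_eq N ZM.E ⟨ZM.wf⟩]
  refine Ordinal.iSup_le fun b => ?_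
  exact Order.succ_le_of_lt (h b.1 b.2)

theorem nrk_VV {x : N} : ∀ z, z ∈ VV x → nrk z < nrk x := by
  refine ind (P := fun x => ∀ z, z ∈ VV x → nrk z < nrk x) ?_ x
  intro x ih z hz
  obtain ⟨y, hy, h1⟩ := mem_VV.1 hz
  exact (nrk_le fun u hu => ih y hy u (h1 u hu)).trans_lt (nrk_lt hy)

/-- a level of least rank -/
theorem VV_least {S : N → Prop} (h : ∃ x, S x) : ∃ x, S x ∧ ∀ y, S y → VV x ⊆ VV y := by
  obtain ⟨x, hx, hm⟩ := WellFounded.has_min (InvImage.wf (nrk (N := N)) Ordinal.lt_wf)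
    {x : N | S x} h
  refine ⟨x, hx, fun y hy => ?_⟩
  rcases VV_lin x y with h1 | ⟨x', hx', h1⟩
  · exact h1
  · exfalso
    refine hm y hy ?_
    have h2 : nrk y ≤ nrk x' := nrk_le fun u hu => nrk_VV u (h1 u (sub_VV y u hu))
    exact h2.trans_lt (nrk_lt hx')

/-- **Collection** -/
theorem collection {R : N → N → Prop} (hR : Dfn fun v => R (v 0) (v 1)) {A : N}
    (h : ∀ a, a ∈ A → ∃ b, R a b) : ∃ B : N, ∀ a, a ∈ A → ∃ b, b ∈ B ∧ R a b := by
  let c : N → N := fun a => the fun z => (∃ b, R a b ∧ z = VV b) ∧ ∀ b, R a b → z ⊆ VV b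
  have hR' : Dfn fun v : ℕ → N => R (v 2) (v 0) :=
    (dfn_ren (fun i => match i with | 0 => 2 | _ => 0) hR).congr fun v => Iff.rfl
  have hc : DF fun v : ℕ → N => c (v 0) := by
    refine df_the (R := fun z v => (∃ b, R (v 0) b ∧ z = VV b) ∧ ∀ b, R (v 0) b → z ⊆ VV b) ?_
    refine dfn_and (dfn_ex (dfn_and hR' (dfn_eq (df_var 1) (df_VV (df_var 0)))))
      (dfn_all (dfn_imp hR' (dfn_sub (df_var 1) (df_VV (df_var 0)))))
  refine ⟨bU A fun a => pw (c a), fun a ha => ?_⟩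
  obtain ⟨b, hb, hm⟩ := VV_least (h a ha)
  have h1 : c a = VV b := the_eq ⟨⟨b, hb, rfl⟩, hm⟩ (by
    rintro z ⟨⟨b', hb', rfl⟩, h2⟩
    exact sub_antisymm (h2 b hb) (hm b' hb'))
  refine ⟨b, ?_, hb⟩
  rw [mem_bU (F := fun a => pw (c a)) (df_pw hc)]
  refine ⟨a, ha, ?_⟩
  rw [mem_pw, h1]
  exact sub_VV b

/-! ### Ordinals -/

/-- `x` is an ordinal -/
def Ord (x : N) : Prop := Tr x ∧ ∀ y, y ∈ x → Tr y

@[simp] theorem dfn_ord {t : (ℕ → N) → N} (ht : DF t) : Dfn fun v => Ord (t v) :=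
  dfn1 (P := Ord) (by unfold Ord; simp (maxDischargeDepth := 99)) ht

theorem Ord.mem {x y : N} (h : Ord x) (hy : y ∈ x) : Ord y :=
  ⟨h.2 y hy, fun z hz => h.2 z (h.1 y hy z hz)⟩

theorem Ord.trans {x y z : N} (h : Ord x) (hy : y ∈ x) (hz : z ∈ y) : z ∈ x := h.1 y hy z hz

theorem ord_tri {x y : N} (hx : Ord x) (hy : Ord y) : x ∈ y ∨ x = y ∨ y ∈ x := by
  suffices H : ∀ x : N, Ord x → ∀ y : N, Ord y → x ∈ y ∨ x = y ∨ y ∈ x from H x hx y hy
  intro x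
  refine ind (P := fun x => Ord x → ∀ y : N, Ord y → x ∈ y ∨ x = y ∨ y ∈ x) ?_ x
  intro x ihx hx y
  refine ind (P := fun y => Ord y → x ∈ y ∨ x = y ∨ y ∈ x) ?_ y
  intro y ihy hy
  by_cases h1 : x ∈ y
  · exact Or.inl h1
  by_cases h2 : y ∈ x
  · exact Or.inr (Or.inr h2)
  refine Or.inr (Or.inl (sub_antisymm ?_ ?_))
  · intro z hz
    rcases ihx z hz (hx.mem hz) y hy with h3 | rfl | h3
    · exact h3
    · exact absurd hz h2
    · exact absurd (hx.trans hz h3) h2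
  · intro z hz
    rcases ihy z hz (hy.mem hz) with h3 | rfl | h3
    · exact absurd (hy.trans hz h3) h1
    · exact absurd hz h1
    · exact h3

theorem ord_sub {x y : N} (hx : Ord x) (hy : Ord y) : x ⊆ y ↔ x ∈ y ∨ x = y := by
  constructor
  · intro h
    rcases ord_tri hx hy with h1 | h1 | h1
    · exact Or.inl h1
    · exact Or.inr h1
    · exact absurd (h y h1) (not_mem_self y)
  · rintro (h | rfl)
    · exact hy.1 x h
    · exact sub_rfl x

/-- least elements (for arbitrary predicates) -/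
theorem least {P : N → Prop} (h : ∃ x, P x) : ∃ x, P x ∧ ∀ y, y ∈ x → ¬ P y := by
  obtain ⟨x, hx, hm⟩ := WellFounded.has_min ZM.wf {x : N | P x} h
  exact ⟨x, hx, fun y hy hP => hm y hP hy⟩

/-- the least ordinal with `P` -/
noncomputable def lst (P : N → Prop) : N := the fun x => Ord x ∧ P x ∧ ∀ y, y ∈ x → ¬ P y

@[simp] theorem df_lst {R : N → (ℕ → N) → Prop} (h : Dfn fun v => R (v 0) fun i => v (i + 1)) :
    DF fun v => lst fun z => R z v := by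
  refine df_the (R := fun z v => Ord z ∧ R z v ∧ ∀ y, y ∈ z → ¬ R y v) (dfn_and
    (dfn_ord (df_var 0)) (dfn_and h (dfn_all (dfn_imp (dfn_mem (df_var 0) (df_var 1))
      (dfn_not ?_)))))
  exact (dfn_ren (fun i => match i with | 0 => 0 | n + 1 => n + 2) h).congr fun v => Iff.rfl

theorem lst_spec {P : N → Prop} (h : ∃ x, Ord x ∧ P x) :
    Ord (lst P) ∧ P (lst P) ∧ ∀ y, y ∈ lst P → ¬ P y := by
  obtain ⟨x, ⟨hx, hP⟩, hm⟩ := least h
  refine the_spec (P := fun x => Ord x ∧ P x ∧ ∀ y, y ∈ x → ¬ P y)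
    ⟨x, ⟨hx, hP, fun y hy hy' => hm y hy ⟨hx.mem hy, hy'⟩⟩, ?_⟩
  rintro y ⟨hy, hPy, hmy⟩
  rcases ord_tri hx hy with h1 | h1 | h1
  · exact absurd hP (hmy x h1)
  · exact h1.symm
  · exact absurd ⟨hy, hPy⟩ (hm y h1)

/-! ### Choice -/

/-- every set is covered by the range of a function on an ordinal -/
def WO (N : Type v) [ZM N] : Prop := ∀ A : N, ∃ o f : N, Ord o ∧ IsF f o ∧ A ⊆ rg f

/-- **Choice** for definable relations -/
theorem choice (hW : WO N) {R : N → N → Prop} (hR : Dfn fun v => R (v 0) (v 1)) {A : N}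
    (h : ∀ a, a ∈ A → ∃ b, R a b) : ∃ F : N → N, (DF fun v => F (v 0)) ∧ ∀ a, a ∈ A → R a (F a) := by
  obtain ⟨B, hB⟩ := collection hR h
  obtain ⟨o, f, ho, hf, hAf⟩ := hW B
  have hR' : Dfn fun v : ℕ → N => R (v 1) (ap f (v 0)) :=
    dfn2 hR (df_var 1) (df_ap (df_const f) (df_var 0))
  refine ⟨fun a => ap f (lst fun x => x ∈ o ∧ R a (ap f x)), ?_, fun a ha => ?_⟩
  · refine df_ap (df_const f) (df_lst (R := fun x v => x ∈ o ∧ R (v 0) (ap f x)) (dfn_and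
      (dfn_mem (df_var 0) (df_const o)) hR'))
  · obtain ⟨b, hb, hab⟩ := hB a ha
    obtain ⟨x, hx, rfl⟩ := hf.mem_rg.1 (hAf b hb)
    exact (lst_spec (P := fun x => x ∈ o ∧ R a (ap f x)) ⟨x, ho.mem hx, hx, hab⟩).2.1.2

/-- **Choice** for definable relations, as a function of `N` -/
theorem choice' (hW : WO N) {R : N → N → Prop} (hR : Dfn fun v => R (v 0) (v 1)) {A : N}
    (h : ∀ a, a ∈ A → ∃ b, R a b) : ∃ f, IsF f A ∧ ∀ a, a ∈ A → R a (ap f a) := by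
  obtain ⟨F, hF, h1⟩ := choice hW hR h
  refine ⟨lam A F, isF_lam hF A, fun a ha => ?_⟩
  rw [ap_lam hF ha]
  exact h1 a ha

end ZU
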