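import Pool.Agent.ZU.Nat
import Pool.Agent.ZU.Cho

/-! # ZU: countable sets, the first uncountable ordinal

(problem MP_ba5606_gt, project ZU; no sorry in this file)

`Ctb x`: the set `x` is covered by the range of a function on `om` (so `∅` is countable).
`IsOm1 θ`: `θ` is the first uncountable ordinal; `exists_om1`: it exists (in models of choice). -/

universe v

namespace ZU

open STP STP.Fml

variable {N : Type v} [ZM N]

/-- `x` is countable -/
def Ctb (x : N) : Prop := ∃ f, IsF f om ∧ x ⊆ rg f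

@[simp] theorem dfn_ctb {s : (ℕ → N) → N} (hs : DF s) : Dfn fun v => Ctb (s v) :=
  dfn1 (P := Ctb) (by unfold Ctb; simp (maxDischargeDepth := 99)) hs

theorem Ctb.sub {x y : N} (h : Ctb x) (hy : y ⊆ x) : Ctb y := by
  obtain ⟨f, hf, h1⟩ := h
  exact ⟨f, hf, sub_trans hy h1⟩

/-- a set covered by the values of a definable function on `om` -/
theorem ctb_of_om {F : N → N} (hF : DF fun v => F (v 0)) {x : N}
    (h : ∀ z, z ∈ x → ∃ n : ℕ, z = F (nt n)) : Ctb x := by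
  refine ⟨lam om F, isF_lam hF _, fun z hz => ?_⟩
  obtain ⟨n, rfl⟩ := h z hz
  rw [(isF_lam hF om).mem_rg]
  exact ⟨nt n, nt_mem_om n, by rw [ap_lam hF (nt_mem_om n)]⟩

theorem Ctb.img {x : N} (h : Ctb x) {F : N → N} (hF : DF fun v => F (v 0)) : Ctb (img x F) := by
  obtain ⟨f, hf, h1⟩ := h
  refine ctb_of_om (F := fun n => F (ap f n)) (df1 hF (df_ap (df_const f) (df_var 0))) fun z hz => ?_
  obtain ⟨w, hw, rfl⟩ := (mem_img hF).1 hz
  obtain ⟨n, hn, rfl⟩ := hf.mem_rg.1 (h1 w hw)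
  obtain ⟨k, rfl⟩ := mem_om.1 hn
  exact ⟨k, rfl⟩

theorem ctb_om : Ctb (om : N) := ctb_of_om (F := fun z => z) (df_var 0) fun _ hz => mem_om.1 hz

theorem ctb_sg (a : N) : Ctb (sg a) := ctb_of_om (F := fun _ => a) (df_const a) fun _ hz =>
  ⟨0, mem_sg.1 hz⟩

theorem ctb_em : Ctb (∅ : N) := (ctb_sg (∅ : N)).sub (em_sub _)

/-! ### Pairs of natural numbers -/

/-- the next pair in the diagonal enumeration -/
noncomputable def nxp (p : N) : N :=
  ife (fst p = ∅) (op (sc (snd p)) ∅) (op (uni (fst p)) (sc (snd p)))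

theorem df_nxp : DF fun v : ℕ → N => nxp (v 0) := by
  unfold nxp
  simp (maxDischargeDepth := 99)

theorem nxp_zero (b : ℕ) : nxp (op (nt 0 : N) (nt b)) = op (nt (b + 1)) (nt 0) := by
  unfold nxp
  rw [fst_op, snd_op, ife_pos nt_zero]
  rfl

theorem nxp_succ (a b : ℕ) : nxp (op (nt (a + 1) : N) (nt b)) = op (nt a) (nt (b + 1)) := by
  unfold nxp
  rw [fst_op, snd_op, ife_neg (nt_ne_em a), uni_nt]
  rfl

/-- the diagonal enumeration of the pairs of natural numbers -/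
noncomputable def enp (x : N) : N := itr (fun _ y => nxp y) (op ∅ ∅) x

theorem df_enpF : DF fun v : ℕ → N => (fun _ y => nxp y) (v 0) (v 1) := df1 df_nxp (df_var 1)

@[simp] theorem df_enp {s : (ℕ → N) → N} (hs : DF s) : DF fun v => enp (s v) :=
  df1 (F := enp) (by
    unfold enp
    exact df_itr (F := fun _ y _ => nxp y) (a := fun _ => op ∅ ∅) (df1 df_nxp (df_var 1))
      (df_const _) (df_var 0)) hs

theorem enp_zero : enp (nt 0 : N) = op (nt 0) (nt 0) := itr_zero df_enpF _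

theorem enp_succ (n : ℕ) : enp (nt (n + 1) : N) = nxp (enp (nt n)) := itr_succ df_enpF _ n

theorem enp_diag (s : ℕ) : ∃ n, enp (nt n : N) = op (nt s) (nt 0) := by
  induction s with
  | zero => exact ⟨0, enp_zero⟩
  | succ s ih =>
    obtain ⟨n, hn⟩ := ih
    have key : ∀ b, b ≤ s → enp (nt (n + b) : N) = op (nt (s - b)) (nt b) := by
      intro b
      induction b with
      | zero => intro _; exact hn
      | succ b ihb =>
        intro hb
        have h1 : s - b = (s - (b + 1)) + 1 := by omega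
        rw [← Nat.add_assoc, enp_succ, ihb (by omega), h1, nxp_succ]
    refine ⟨n + s + 1, ?_⟩
    rw [enp_succ, key s le_rfl, Nat.sub_self, nxp_zero]

theorem enp_surj (a b : ℕ) : ∃ n, enp (nt n : N) = op (nt a) (nt b) := by
  obtain ⟨n, hn⟩ := enp_diag (N := N) (a + b)
  have key : ∀ c, c ≤ b → enp (nt (n + c) : N) = op (nt (a + b - c)) (nt c) := by
    intro c
    induction c with
    | zero => intro _; exact hn
    | succ c ihc =>
      intro hc
      have h1 : a + b - c = (a + b - (c + 1)) + 1 := by omega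
      rw [← Nat.add_assoc, enp_succ, ihc (by omega), h1, nxp_succ]
  refine ⟨n + b, ?_⟩
  rw [key b le_rfl]
  congr 2
  omega

theorem ctb_prd_om : Ctb (prd om om : N) := by
  refine ctb_of_om (F := enp) (df_enp (df_var 0)) fun z hz => ?_
  obtain ⟨a, b, ha, hb, rfl⟩ := mem_prd.1 hz
  obtain ⟨a, rfl⟩ := mem_om.1 ha
  obtain ⟨b, rfl⟩ := mem_om.1 hb
  obtain ⟨n, hn⟩ := enp_surj (N := N) a b
  exact ⟨n, hn.symm⟩

theorem ctb_prd {x y : N} (hx : Ctb x) (hy : Ctb y) : Ctb (prd x y) := by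
  obtain ⟨f, hf, h1⟩ := hx
  obtain ⟨g, hg, h2⟩ := hy
  refine (ctb_prd_om.img (F := fun p => op (ap f (fst p)) (ap g (snd p)))
    (by simp (maxDischargeDepth := 99))).sub fun z hz => ?_
  obtain ⟨a, b, ha, hb, rfl⟩ := mem_prd.1 hz
  obtain ⟨m, hm, rfl⟩ := hf.mem_rg.1 (h1 a ha)
  obtain ⟨n, hn, rfl⟩ := hg.mem_rg.1 (h2 b hb)
  refine (mem_img (by simp (maxDischargeDepth := 99))).2 ⟨op m n, op_mem_prd.2 ⟨hm, hn⟩, ?_⟩
  simp

/-- a countable union of countable sets is countable -/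
theorem ctb_bU (hW : WO N) {A : N} {F : N → N} (hF : DF fun v => F (v 0)) (hA : Ctb A)
    (h : ∀ a, a ∈ A → Ctb (F a)) : Ctb (bU A F) := by
  obtain ⟨f, hf, h1⟩ := hA
  obtain ⟨g, hg, h2⟩ := choice hW (R := fun a b => IsF b om ∧ F a ⊆ rg b) (A := A)
    (dfn_and (dfn_isF (df_var 1) (df_const _)) (dfn_sub hF (df_rg (df_var 1)))) h
  refine (ctb_prd_om.img (F := fun p => ap (g (ap f (fst p))) (snd p)) ?_).sub fun z hz => ?_
  · exact df_ap (df1 hg (df_ap (df_const f) (df_fst (df_var 0)))) (df_snd (df_var 0))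
  obtain ⟨a, ha, hz⟩ := (mem_bU hF).1 hz
  obtain ⟨h3, h4⟩ := h2 a ha
  obtain ⟨m, hm, hz⟩ := h3.mem_rg.1 (h4 z hz)
  obtain ⟨n, hn, rfl⟩ := hf.mem_rg.1 (h1 a ha)
  refine (mem_img (F := fun p => ap (g (ap f (fst p))) (snd p)) ?_).2
    ⟨op n m, op_mem_prd.2 ⟨hn, hm⟩, ?_⟩
  · exact df_ap (df1 hg (df_ap (df_const f) (df_fst (df_var 0)))) (df_snd (df_var 0))
  · simp [hz]

theorem Ctb.cup {x y : N} (hx : Ctb x) (hy : Ctb y) : Ctb (cup x y) := by
  obtain ⟨f, hf, h1⟩ := hx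
  obtain ⟨g, hg, h2⟩ := hy
  refine (ctb_prd_om.img (F := fun p => ife (fst p = ∅) (ap f (snd p)) (ap g (snd p)))
    (by simp (maxDischargeDepth := 99))).sub fun z hz => ?_
  rw [mem_img (by simp (maxDischargeDepth := 99))]
  rcases mem_cup.1 hz with hz | hz
  · obtain ⟨m, hm, rfl⟩ := hf.mem_rg.1 (h1 z hz)
    refine ⟨op (nt 0) m, op_mem_prd.2 ⟨nt_mem_om 0, hm⟩, ?_⟩
    rw [fst_op, snd_op, ife_pos nt_zero]
  · obtain ⟨m, hm, rfl⟩ := hg.mem_rg.1 (h2 z hz)
    refine ⟨op (nt 1) m, op_mem_prd.2 ⟨nt_mem_om 1, hm⟩, ?_⟩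
    rw [fst_op, snd_op, ife_neg (nt_ne_em 0)]

/-- Cantor: the power set of `om` is uncountable -/
theorem not_ctb_pw : ¬ Ctb (pw om : N) := by
  rintro ⟨f, hf, h⟩
  have hD : Dfn fun v : ℕ → N => ¬ v 0 ∈ ap f (v 0) := by simp (maxDischargeDepth := 99)
  have h1 : sep om (fun n => ¬ n ∈ ap f n) ∈ (pw om : N) :=
    mem_pw.2 fun z hz => ((mem_sep hD).1 hz).1
  obtain ⟨n, hn, h2⟩ := hf.mem_rg.1 (h _ h1)
  have h3 : n ∈ sep om (fun n => ¬ n ∈ ap f n) ↔ n ∈ om ∧ ¬ n ∈ ap f n := mem_sep hD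
  rw [h2] at h3
  tauto

/-! ### The first uncountable ordinal -/

/-- `θ` is the first uncountable ordinal -/
def IsOm1 (θ : N) : Prop :=
  Ord θ ∧ (∀ a, a ∈ θ → Ctb a) ∧ ∀ A, A ⊆ θ → Ctb A → ∃ b, b ∈ θ ∧ A ⊆ b

theorem exists_om1 (hW : WO N) : ∃ θ : N, IsOm1 θ := by
  obtain ⟨o, f, ho, hf, h⟩ := hW (pw om)
  have h1 : ¬ Ctb o := by
    intro hc
    refine not_ctb_pw ((hc.img (F := ap f) (df_ap_c f)).sub fun z hz => ?_)
    obtain ⟨x, hx, rfl⟩ := hf.mem_rg.1 (h z hz)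
    exact (mem_img (df_ap_c f)).2 ⟨x, hx, rfl⟩
  obtain ⟨h2, h3, h4⟩ := lst_spec (P := fun x : N => ¬ Ctb x) ⟨o, ho, h1⟩
  refine ⟨lst fun x : N => ¬ Ctb x, h2, fun a ha => not_not.1 (h4 a ha), fun A hA hc => ?_⟩
  by_contra hb
  push Not at hb
  refine h3 ((ctb_bU hW (F := sc) (df_sc (df_var 0)) hc fun a ha => ?_).sub fun z hz => ?_)
  · have : Ctb a := not_not.1 (h4 a (hA a ha))
    exact this.cup (ctb_sg a)
  · rw [mem_bU (df_sc (df_var 0))]
    have hz' := h2.mem hz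
    have h5 : ∃ a, a ∈ A ∧ ¬ a ∈ z := by
      have := hb z hz
      rw [sub_iff] at this
      push Not at this
      exact this
    obtain ⟨a, ha, haz⟩ := h5
    refine ⟨a, ha, ?_⟩
    rw [mem_sc]
    rcases ord_tri (h2.mem (hA a ha)) hz' with h6 | h6 | h6
    · exact absurd h6 haz
    · exact Or.inr h6.symm
    · exact Or.inl h6

theorem IsOm1.nonempty {θ : N} (h : IsOm1 θ) : ∅ ∈ θ := by
  obtain ⟨b, hb, -⟩ := h.2.2 ∅ (em_sub _) ctb_em
  have h1 := h.1.mem hb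
  have h2 : Ord (∅ : N) := ⟨fun x hx => absurd hx (not_mem_em x), fun x hx => absurd hx (not_mem_em x)⟩
  rcases ord_tri h2 h1 with h3 | h3 | h3
  · exact h.1.trans hb h3
  · rw [h3]
    exact hb
  · exact absurd h3 (not_mem_em b)

end ZU
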