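import Pool.Agent.ZU.Emb
import Mathlib.SetTheory.ZFC.Ordinal
import Mathlib.SetTheory.ZFC.Rank

/-! # ZU: the universe of sets and transitive models

(problem MP_ba5606_gt, project ZU; no sorry in this file)

`ZFSet.{u}` is a model of ZF (instance of `ZM`), and the operations of `Ops.lean` are the usual ones
(`op_eq`, `sep_eq`, ...). `TM M`: the set `M` is transitive and a model of ZF; then the subtype `M` is a
`ZM`, the inclusion is a transitive embedding (`emb M`), and so are inclusions between two such `M`. -/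

universe u

namespace ZU

open STP STP.Fml

theorem zfa_univ : ZFA (fun x y : ZFSet.{u} => x ∈ y) where
  ext x y h := ZFSet.ext h
  pair x y := ⟨{x, y}, fun w => by simp⟩
  union x := ⟨ZFSet.sUnion x, fun z => by simp⟩
  power x := ⟨ZFSet.powerset x, fun z => by rw [ZFSet.mem_powerset]; rfl⟩
  infinity := by
    refine ⟨ZFSet.omega, ⟨∅, ZFSet.omega_zero, by simp⟩, fun y hy => ?_⟩
    exact ⟨insert y y, ZFSet.omega_succ hy, fun w => by rw [ZFSet.mem_insert_iff]; tauto⟩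
  separation φ v x := ⟨x.sep fun z => sat (fun x y : ZFSet.{u} => x ∈ y) φ (cns z v), fun z => by
    rw [ZFSet.mem_sep]⟩
  replacement φ v x h := by
    classical
    choose f hf hf' using h
    refine ⟨ZFSet.range fun s : {z : ZFSet.{u} // z ∈ x} => f s.1 s.2, fun w => ?_⟩
    rw [ZFSet.mem_range]
    constructor
    · rintro ⟨⟨z, hz⟩, rfl⟩
      exact ⟨z, hz, hf z hz⟩
    · rintro ⟨z, hz, hw⟩
      exact ⟨⟨z, hz⟩, (hf' z hz w hw).symm⟩

/-- `M` is transitive and a model of ZF -/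
class TM (M : Set ZFSet.{u}) : Prop where
  tr : ∀ x ∈ M, ∀ y ∈ x, y ∈ M
  ax : ZFA fun x y : M => x.1 ∈ y.1

noncomputable instance instZM (M : Set ZFSet.{u}) [TM M] : ZM M :=
  ⟨fun x y => x.1 ∈ y.1, InvImage.wf (fun x : M => x.1) ZFSet.mem_wf, TM.ax⟩

theorem zfa_of_zfc {N : Type*} {E : N → N → Prop} (h : ZFC E) : ZFA E :=
  ⟨h.ext, h.pair, h.union, h.power, h.infinity, h.separation, h.replacement⟩

/-- a transitive model of ZFC -/
theorem tm_of_zfc {M : Set ZFSet.{u}} (h : ∀ x ∈ M, ∀ y ∈ x, y ∈ M)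
    (h' : ZFC fun x y : M => x.1 ∈ y.1) : TM M := ⟨h, zfa_of_zfc h'⟩

/-- the universe as a transitive model -/
instance tm_univ : TM (Set.univ : Set ZFSet.{u}) where
  tr _ _ _ _ := trivial
  ax := by
    have e : ∀ (φ : Fml) (v : ℕ → (Set.univ : Set ZFSet.{u})),
        sat (fun x y : (Set.univ : Set ZFSet.{u}) => x.1 ∈ y.1) φ v ↔
          sat (fun x y : ZFSet.{u} => x ∈ y) φ fun i => (v i).1 := by
      intro φ
      induction φ with
      | mem i j => exact fun v => Iff.rfl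
      | eq i j => exact fun v => Subtype.ext_iff
      | bot => exact fun v => Iff.rfl
      | imp φ ψ h1 h2 => exact fun v => imp_congr (h1 v) (h2 v)
      | all φ h1 =>
        intro v
        have h2 : ∀ x : (Set.univ : Set ZFSet.{u}), (fun i => (cns x v i).1) =
            cns x.1 fun i => (v i).1 := fun x => by
          funext i
          cases i <;> rfl
        constructor
        · intro h x
          have := (h1 _).1 (h ⟨x, trivial⟩)
          rwa [h2] at this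
        · intro h x
          refine (h1 _).2 ?_
          rw [h2]
          exact h x.1
    have h := zfa_univ.{u}
    have c2 : ∀ (x : (Set.univ : Set ZFSet.{u})) (v : ℕ → (Set.univ : Set ZFSet.{u})),
        (fun i => (cns x v i).1) = cns x.1 fun i => (v i).1 := fun x v => by
      funext i
      cases i <;> rfl
    refine ⟨?_, ?_, ?_, ?_, ?_, ?_, ?_⟩
    · intro x y h'
      exact Subtype.ext (h.ext _ _ fun z => h' ⟨z, trivial⟩)
    · intro x y
      obtain ⟨z, hz⟩ := h.pair x.1 y.1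
      exact ⟨⟨z, trivial⟩, fun w => (hz w.1).trans (by rw [Subtype.ext_iff, Subtype.ext_iff])⟩
    · intro x
      obtain ⟨y, hy⟩ := h.union x.1
      refine ⟨⟨y, trivial⟩, fun z => (hy z.1).trans ?_⟩
      exact ⟨fun ⟨w, h1, h2⟩ => ⟨⟨w, trivial⟩, h1, h2⟩, fun ⟨w, h1, h2⟩ => ⟨w.1, h1, h2⟩⟩
    · intro x
      obtain ⟨y, hy⟩ := h.power x.1
      refine ⟨⟨y, trivial⟩, fun z => (hy z.1).trans ?_⟩
      exact ⟨fun h w => h w.1, fun h w => h ⟨w, trivial⟩⟩
    · obtain ⟨x, ⟨y, hy, hy'⟩, hx⟩ := h.infinity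
      refine ⟨⟨x, trivial⟩, ⟨⟨y, trivial⟩, hy, fun z => hy' z.1⟩, fun y hy => ?_⟩
      obtain ⟨z, hz, hz'⟩ := hx y.1 hy
      exact ⟨⟨z, trivial⟩, hz, fun w => (hz' w.1).trans (by rw [Subtype.ext_iff])⟩
    · intro φ v x
      obtain ⟨y, hy⟩ := h.separation φ (fun i => (v i).1) x.1
      refine ⟨⟨y, trivial⟩, fun z => (hy z.1).trans ?_⟩
      rw [e, c2]
    · intro φ v x hx
      obtain ⟨y, hy⟩ := h.replacement φ (fun i => (v i).1) x.1 (by
        intro z hz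
        obtain ⟨w, hw, hw'⟩ := hx ⟨z, trivial⟩ hz
        rw [e, c2, c2] at hw
        refine ⟨w.1, hw, fun u hu => ?_⟩
        have := hw' ⟨u, trivial⟩ ((e _ _).2 (by rw [c2, c2]; exact hu))
        rw [← this])
      refine ⟨⟨y, trivial⟩, fun w => (hy w.1).trans ?_⟩
      constructor
      · rintro ⟨z, hz, h1⟩
        exact ⟨⟨z, trivial⟩, hz, (e _ _).2 (by rw [c2, c2]; exact h1)⟩
      · rintro ⟨z, hz, h1⟩
        refine ⟨z.1, hz, ?_⟩
        rw [e, c2, c2] at h1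
        exact h1

variable {M : Set ZFSet.{u}} [TM M]

theorem mem_val {x y : M} : x ∈ y ↔ x.1 ∈ y.1 := Iff.rfl

/-- elements of elements of `M` are in `M` -/
theorem ex_val {x : M} {z : ZFSet.{u}} (h : z ∈ x.1) : ∃ y : M, y ∈ x ∧ y.1 = z :=
  ⟨⟨z, TM.tr x.1 x.2 z h⟩, h, rfl⟩

/-- inclusions of transitive models are transitive embeddings -/
theorem emb_incl {M M' : Set ZFSet.{u}} [TM M] [TM M'] (h : M ⊆ M') :
    TrEmb (Set.inclusion h) where
  inj x y hxy := by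
    have := congrArg Subtype.val hxy
    exact Subtype.ext this
  mem_iff _ _ := Iff.rfl
  tr x z hz := ⟨⟨z.1, TM.tr x.1 x.2 z.1 hz⟩, hz, rfl⟩

/-- to show `a.1 = b` it is enough to compare the elements -/
theorem val_eq {a : M} {b : ZFSet.{u}} (h1 : ∀ x : M, x ∈ a → x.1 ∈ b)
    (h2 : ∀ z ∈ b, ∃ x : M, x ∈ a ∧ x.1 = z) : a.1 = b := by
  refine ZFSet.ext fun z => ⟨fun hz => ?_, fun hz => ?_⟩
  · exact h1 ⟨z, TM.tr a.1 a.2 z hz⟩ hz
  · obtain ⟨x, hx, rfl⟩ := h2 z hz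
    exact hx

@[simp] theorem val_em : (∅ : M).1 = ∅ := val_eq (fun x hx => absurd hx (not_mem_em x))
  fun z hz => absurd hz (ZFSet.notMem_empty z)

theorem val_sub {x y : M} : x ⊆ y ↔ x.1 ⊆ y.1 :=
  ⟨fun h z hz => h ⟨z, TM.tr x.1 x.2 z hz⟩ hz, fun h z hz => h hz⟩

@[simp] theorem val_up {x y : M} : (up x y).1 = {x.1, y.1} := by
  refine val_eq (fun z hz => ?_) fun z hz => ?_
  · rw [ZFSet.mem_pair]
    exact (mem_up.1 hz).imp (fun h => by rw [h]) fun h => by rw [h]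
  · rw [ZFSet.mem_pair] at hz
    rcases hz with rfl | rfl
    · exact ⟨x, by simp, rfl⟩
    · exact ⟨y, by simp, rfl⟩

@[simp] theorem val_sg {x : M} : (sg x).1 = {x.1} := by
  refine val_eq (fun z hz => ?_) fun z hz => ?_
  · rw [ZFSet.mem_singleton, mem_sg.1 hz]
  · rw [ZFSet.mem_singleton] at hz
    exact ⟨x, by simp, hz.symm⟩

@[simp] theorem val_op {x y : M} : (op x y).1 = ZFSet.pair x.1 y.1 := by
  have : up x x = sg x := rfl
  unfold op ZFSet.pair
  rw [val_up, this, val_sg, val_up]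

@[simp] theorem val_uni {x : M} : (uni x).1 = ZFSet.sUnion x.1 := by
  refine val_eq (fun z hz => ?_) fun z hz => ?_
  · obtain ⟨w, hw, hz⟩ := mem_uni.1 hz
    exact ZFSet.mem_sUnion.2 ⟨w.1, hw, hz⟩
  · obtain ⟨w, hw, hz⟩ := ZFSet.mem_sUnion.1 hz
    obtain ⟨w, hw, rfl⟩ := ex_val hw
    obtain ⟨z, hz, rfl⟩ := ex_val hz
    exact ⟨z, mem_uni.2 ⟨w, hw, hz⟩, rfl⟩

@[simp] theorem val_cup {x y : M} : (cup x y).1 = x.1 ∪ y.1 := by
  refine val_eq (fun z hz => ?_) fun z hz => ?_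
  · rw [ZFSet.mem_union]
    exact mem_cup.1 hz
  · rw [ZFSet.mem_union] at hz
    rcases hz with hz | hz
    · obtain ⟨z, hz, rfl⟩ := ex_val hz
      exact ⟨z, mem_cup.2 (Or.inl hz), rfl⟩
    · obtain ⟨z, hz, rfl⟩ := ex_val hz
      exact ⟨z, mem_cup.2 (Or.inr hz), rfl⟩

theorem val_sep {x : M} {P : M → Prop} {P' : ZFSet.{u} → Prop} (hP : Dfn fun v => P (v 0))
    (h : ∀ z : M, z ∈ x → (P z ↔ P' z.1)) : (sep x P).1 = x.1.sep P' := by
  refine val_eq (fun z hz => ?_) fun z hz => ?_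
  · rw [mem_sep hP] at hz
    exact ZFSet.mem_sep.2 ⟨hz.1, (h z hz.1).1 hz.2⟩
  · rw [ZFSet.mem_sep] at hz
    obtain ⟨y, hy, rfl⟩ := ex_val hz.1
    exact ⟨y, (mem_sep hP).2 ⟨hy, (h y hy).2 hz.2⟩, rfl⟩

@[simp] theorem val_cap {x y : M} : (cap x y).1 = x.1 ∩ y.1 := by
  refine val_eq (fun z hz => ?_) fun z hz => ?_
  · rw [ZFSet.mem_inter]
    exact mem_cap.1 hz
  · rw [ZFSet.mem_inter] at hz
    obtain ⟨z, hz1, rfl⟩ := ex_val hz.1
    exact ⟨z, mem_cap.2 ⟨hz1, hz.2⟩, rfl⟩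

@[simp] theorem val_dif {x y : M} : (dif x y).1 = x.1 \ y.1 := by
  refine val_eq (fun z hz => ?_) fun z hz => ?_
  · rw [ZFSet.mem_sdiff]
    exact mem_dif.1 hz
  · rw [ZFSet.mem_sdiff] at hz
    obtain ⟨z, hz1, rfl⟩ := ex_val hz.1
    exact ⟨z, mem_dif.2 ⟨hz1, hz.2⟩, rfl⟩

@[simp] theorem val_prd {x y : M} : (prd x y).1 = ZFSet.prod x.1 y.1 := by
  refine val_eq (fun z hz => ?_) fun z hz => ?_
  · obtain ⟨a, b, ha, hb, rfl⟩ := mem_prd.1 hz
    rw [val_op, ZFSet.pair_mem_prod]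
    exact ⟨ha, hb⟩
  · rw [ZFSet.mem_prod] at hz
    obtain ⟨a, ha, b, hb, rfl⟩ := hz
    obtain ⟨a, ha, rfl⟩ := ex_val ha
    obtain ⟨b, hb, rfl⟩ := ex_val hb
    exact ⟨op a b, op_mem_prd.2 ⟨ha, hb⟩, val_op⟩

@[simp] theorem val_sc {x : M} : (sc x).1 = insert x.1 x.1 := by
  refine val_eq (fun z hz => ?_) fun z hz => ?_
  · rw [ZFSet.mem_insert_iff]
    exact (mem_sc.1 hz).symm.imp (fun h => by rw [h]) fun h => h
  · rw [ZFSet.mem_insert_iff] at hz
    rcases hz with rfl | hz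
    · exact ⟨x, mem_sc.2 (Or.inr rfl), rfl⟩
    · obtain ⟨z, hz, rfl⟩ := ex_val hz
      exact ⟨z, mem_sc.2 (Or.inl hz), rfl⟩

/-- pairs of elements of `M` are in `M`; conversely the components of a pair in `M` are in `M` -/
theorem pair_mem_iff {a b : ZFSet.{u}} : ZFSet.pair a b ∈ M ↔ a ∈ M ∧ b ∈ M := by
  constructor
  · intro h
    have h1 : ({a, b} : ZFSet.{u}) ∈ M := TM.tr _ h _ (by simp [ZFSet.pair])
    exact ⟨TM.tr _ h1 _ (by simp), TM.tr _ h1 _ (by simp)⟩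
  · rintro ⟨ha, hb⟩
    have := (op (⟨a, ha⟩ : M) ⟨b, hb⟩).2
    rwa [val_op] at this

/-- a pair in `x : M` -/
theorem pair_mem_val {a b : ZFSet.{u}} {x : M} :
    ZFSet.pair a b ∈ x.1 ↔ ∃ a' b' : M, a'.1 = a ∧ b'.1 = b ∧ op a' b' ∈ x := by
  constructor
  · intro h
    obtain ⟨ha, hb⟩ := pair_mem_iff.1 (TM.tr _ x.2 _ h)
    refine ⟨⟨a, ha⟩, ⟨b, hb⟩, rfl, rfl, ?_⟩
    rw [mem_val, val_op]
    exact h
  · rintro ⟨a', b', rfl, rfl, h⟩
    rw [mem_val, val_op] at h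
    exact h

theorem op_mem_val {a b x : M} : op a b ∈ x ↔ ZFSet.pair a.1 b.1 ∈ x.1 := by
  rw [mem_val, val_op]

/-- the numeral of `n` in the universe -/
def num : ℕ → ZFSet.{u}
  | 0 => ∅
  | n + 1 => insert (num n) (num n)

theorem num_eq_mk (n : ℕ) : num.{u} n = ZFSet.mk (PSet.ofNat n) := by
  induction n with
  | zero => rfl
  | succ n ih => rw [num, ih]; rfl

theorem mem_omega {z : ZFSet.{u}} : z ∈ ZFSet.omega ↔ ∃ n, z = num n := by
  constructor
  · refine Quotient.inductionOn z fun x h => ?_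
    obtain ⟨⟨n⟩, h⟩ := h
    exact ⟨n, by rw [num_eq_mk]; exact ZFSet.sound h⟩
  · rintro ⟨n, rfl⟩
    induction n with
    | zero => exact ZFSet.omega_zero
    | succ n ih => exact ZFSet.omega_succ ih

@[simp] theorem val_nt (n : ℕ) : (nt n : M).1 = num n := by
  induction n with
  | zero => exact val_em
  | succ n ih => rw [nt_succ, val_sc, ih]; rfl

@[simp] theorem val_om : (om : M).1 = ZFSet.omega := by
  refine val_eq (fun z hz => ?_) fun z hz => ?_
  · obtain ⟨n, rfl⟩ := mem_om.1 hz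
    exact mem_omega.2 ⟨n, val_nt n⟩
  · obtain ⟨n, rfl⟩ := mem_omega.1 hz
    exact ⟨nt n, nt_mem_om n, val_nt n⟩

theorem num_mem (n : ℕ) : num.{u} n ∈ M := by
  have := (nt n : M).2
  rwa [val_nt] at this

theorem omega_mem : (ZFSet.omega : ZFSet.{u}) ∈ M := by
  have := (om : M).2
  rwa [val_om] at this

end ZU
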