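import Pool.Agent.ZU.Ops

/-! # ZU: recursion along definable set-like well-founded relations

(problem MP_ba5606_gt, project ZU; no sorry in this file)

`pr x` is the set of predecessors of `x`; `IndP pr` says that induction along `pr` holds for DEFINABLE
predicates (it holds if the relation `y ∈ pr x` is natively well-founded, `indP_of_wf`). `clo pr x` is
the least set which contains `x` and is closed under `pr`; `WRec pr G x = G (lam (pr x) (WRec pr G))`.
The special case `pr = id` is `Rec G x = G (lam x (Rec G))`. -/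

universe v

namespace ZU

open STP STP.Fml

variable {N : Type v} [ZM N]

/-- induction along `pr` for definable predicates -/
def IndP (pr : N → N) : Prop :=
  ∀ P : N → Prop, (Dfn fun v => P (v 0)) → (∀ x, (∀ y, y ∈ pr x → P y) → P x) → ∀ x, P x

theorem indP_of_wf {pr : N → N} (h : WellFounded fun y x => y ∈ pr x) : IndP pr :=
  fun _ _ hP x => h.induction x hP

theorem indP_id : IndP (fun x : N => x) := fun _ _ hP x => ind hP x

/-- `t` is closed under `pr` -/
def Cl (pr : N → N) (t : N) : Prop := ∀ x, x ∈ t → pr x ⊆ t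

@[simp] theorem dfn_cl {pr : N → (ℕ → N) → N} {t : (ℕ → N) → N}
    (hpr : DF fun v => pr (v 0) fun i => v (i + 1)) (ht : DF t) :
    Dfn fun v => Cl (fun x => pr x v) (t v) := by
  unfold Cl
  refine dfn_all (dfn_imp (dfn_mem (df_var 0) ht.wk) (dfn_sub ?_ ht.wk))
  exact hpr

/-- the least set which contains `x` and is closed under `pr` -/
noncomputable def clo (pr : N → N) (x : N) : N :=
  the fun s => ∀ z, z ∈ s ↔ ∀ t, Cl pr t → x ∈ t → z ∈ t

@[simp] theorem df_clo {pr : N → (ℕ → N) → N} {x : (ℕ → N) → N}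
    (hpr : DF fun v => pr (v 0) fun i => v (i + 1)) (hx : DF x) :
    DF fun v => clo (fun y => pr y v) (x v) := by
  unfold clo
  refine df_the (R := fun s v => ∀ z, z ∈ s ↔ ∀ t, Cl (fun y => pr y v) t → x v ∈ t → z ∈ t)
    (dfn_all (dfn_iff (dfn_mem (df_var 0) (df_var 1)) (dfn_all (dfn_imp ?_ (dfn_imp
      (dfn_mem hx.wk.wk.wk (df_var 0)) (dfn_mem (df_var 1) (df_var 0)))))))
  refine dfn_cl (pr := fun y v => pr y fun i => v (i + 3)) ?_ (df_var 0)
  exact (df_ren (fun i => match i with | 0 => 0 | n + 1 => n + 4) hpr).congr fun v => rfl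

theorem clo_ex {pr : N → N} (hpr : DF fun v => pr (v 0)) (hi : IndP pr) (x : N) :
    ∃ t, Cl pr t ∧ x ∈ t := by
  refine hi (fun x => ∃ t, Cl pr t ∧ x ∈ t) ?_ ?_ x
  · refine dfn_ex (dfn_and (dfn_cl (pr := fun y _ => pr y) hpr (df_var 0)) ?_)
    simp
  · intro x ih
    -- the closures of the predecessors
    have key : ∀ y, y ∈ pr x → ∀ z, z ∈ clo pr y ↔ ∀ t, Cl pr t → y ∈ t → z ∈ t := by
      intro y hy
      obtain ⟨t, ht, hyt⟩ := ih y hy
      have hD : Dfn fun v : ℕ → N => ∀ t, Cl pr t → y ∈ t → v 0 ∈ t := by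
        refine dfn_all (dfn_imp (dfn_cl (pr := fun y _ => pr y) hpr (df_var 0)) ?_)
        simp
      have h1 : ∀ z, z ∈ sep t (fun z => ∀ t, Cl pr t → y ∈ t → z ∈ t) ↔
          ∀ t, Cl pr t → y ∈ t → z ∈ t := by
        intro z
        rw [mem_sep hD]
        exact ⟨fun h => h.2, fun h => ⟨h t ht hyt, h⟩⟩
      have h2 : clo pr y = sep t (fun z => ∀ t, Cl pr t → y ∈ t → z ∈ t) :=
        the_eq h1 fun w hw => ext fun u => (hw u).trans (h1 u).symm
      rw [h2]
      exact h1
    have hc : DF fun v : ℕ → N => clo pr (v 0) := df_clo (pr := fun y _ => pr y) hpr (df_var 0)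
    refine ⟨cup (sg x) (bU (pr x) (clo pr)), ?_, mem_cup.2 (Or.inl (mem_sg.2 rfl))⟩
    intro z hz u hu
    rw [mem_cup]
    right
    rw [mem_bU hc]
    rcases mem_cup.1 hz with hz | hz
    · rw [mem_sg] at hz
      subst hz
      exact ⟨u, hu, (key u hu u).2 fun t _ ht => ht⟩
    · rw [mem_bU hc] at hz
      obtain ⟨y, hy, hz⟩ := hz
      refine ⟨y, hy, (key y hy u).2 fun t ht hyt => ?_⟩
      exact ht z ((key y hy z).1 hz t ht hyt) u hu

section
variable {pr : N → N} (hpr : DF fun v => pr (v 0)) (hi : IndP pr)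
include hpr hi

theorem mem_clo {x z : N} : z ∈ clo pr x ↔ ∀ t, Cl pr t → x ∈ t → z ∈ t := by
  obtain ⟨t, ht, hyt⟩ := clo_ex hpr hi x
  have hD : Dfn fun v : ℕ → N => ∀ t, Cl pr t → x ∈ t → v 0 ∈ t := by
    refine dfn_all (dfn_imp (dfn_cl (pr := fun y _ => pr y) hpr (df_var 0)) ?_)
    simp
  have h1 : ∀ z, z ∈ sep t (fun z => ∀ t, Cl pr t → x ∈ t → z ∈ t) ↔
      ∀ t, Cl pr t → x ∈ t → z ∈ t := by
    intro z
    rw [mem_sep hD]
    exact ⟨fun h => h.2, fun h => ⟨h t ht hyt, h⟩⟩
  have h2 : clo pr x = sep t (fun z => ∀ t, Cl pr t → x ∈ t → z ∈ t) :=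
    the_eq h1 fun w hw => ext fun u => (hw u).trans (h1 u).symm
  rw [h2]
  exact h1 z

theorem self_mem_clo (x : N) : x ∈ clo pr x := (mem_clo hpr hi).2 fun _ _ h => h

theorem cl_clo (x : N) : Cl pr (clo pr x) := by
  intro y hy z hz
  rw [mem_clo hpr hi] at hy ⊢
  exact fun t ht hx => ht y (hy t ht hx) z hz

theorem clo_sub {x t : N} (ht : Cl pr t) (hx : x ∈ t) : clo pr x ⊆ t :=
  fun _ hz => (mem_clo hpr hi).1 hz t ht hx

theorem clo_mono {x y : N} (h : y ∈ clo pr x) : clo pr y ⊆ clo pr x :=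
  clo_sub hpr hi (cl_clo hpr hi x) h

theorem clo_eq (x : N) : clo pr x = cup (sg x) (bU (pr x) (clo pr)) := by
  have hc : DF fun v : ℕ → N => clo pr (v 0) := df_clo (pr := fun y _ => pr y) hpr (df_var 0)
  refine sub_antisymm (clo_sub hpr hi ?_ (mem_cup.2 (Or.inl (mem_sg.2 rfl)))) ?_
  · intro z hz u hu
    rw [mem_cup]
    right
    rw [mem_bU hc]
    rcases mem_cup.1 hz with hz | hz
    · rw [mem_sg] at hz
      subst hz
      exact ⟨u, hu, self_mem_clo hpr hi u⟩
    · rw [mem_bU hc] at hz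
      obtain ⟨y, hy, hz⟩ := hz
      exact ⟨y, hy, cl_clo hpr hi y z hz u hu⟩
  · intro z hz
    rcases mem_cup.1 hz with hz | hz
    · rw [mem_sg] at hz
      subst hz
      exact self_mem_clo hpr hi z
    · rw [mem_bU hc] at hz
      obtain ⟨y, hy, hz⟩ := hz
      exact clo_mono hpr hi (cl_clo hpr hi x x (self_mem_clo hpr hi x) y hy) z hz

end

/-- `f` is the attempt with domain `t` -/
def Att (pr : N → N) (G : N → N → N) (f t : N) : Prop :=
  IsF f t ∧ ∀ z, z ∈ t → ap f z = G z (res f (pr z))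

/-- **Recursion along `pr`**: `WRec pr G x = G x (lam (pr x) (WRec pr G))` -/
noncomputable def WRec (pr : N → N) (G : N → N → N) (x : N) : N :=
  ap (the fun f => Att pr G f (clo pr x)) x

theorem dfn_att {pr : N → (ℕ → N) → N} {G : N → N → (ℕ → N) → N} {f t : (ℕ → N) → N}
    (hpr : DF fun v => pr (v 0) fun i => v (i + 1))
    (hG : DF fun v => G (v 0) (v 1) fun i => v (i + 2)) (hf : DF f) (ht : DF t) :
    Dfn fun v => Att (fun x => pr x v) (fun x y => G x y v) (f v) (t v) := by
  unfold Att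
  refine dfn_and (dfn_isF hf ht) (dfn_all (dfn_imp (dfn_mem (df_var 0) ht.wk)
    (dfn_eq (df_ap hf.wk (df_var 0)) ?_)))
  refine (df_subst (w := fun i v => match i with
    | 0 => v 0
    | 1 => res (f fun i => v (i + 1)) (pr (v 0) fun i => v (i + 1))
    | n + 2 => v (n + 1)) hG ?_).congr fun v => rfl
  intro i
  rcases i with _ | _ | n
  · exact df_var 0
  · exact df_res hf.wk hpr
  · exact df_var (n + 1)

@[simp] theorem df_wrec {pr : N → (ℕ → N) → N} {G : N → N → (ℕ → N) → N} {x : (ℕ → N) → N}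
    (hpr : DF fun v => pr (v 0) fun i => v (i + 1))
    (hG : DF fun v => G (v 0) (v 1) fun i => v (i + 2)) (hx : DF x) :
    DF fun v => WRec (fun x => pr x v) (fun x y => G x y v) (x v) := by
  unfold WRec
  refine df_ap (df_the (R := fun f v => Att (fun x => pr x v) (fun x y => G x y v) f
    (clo (fun y => pr y v) (x v))) ?_) hx
  refine dfn_att (pr := fun y v => pr y fun i => v (i + 1))
    (G := fun x y v => G x y fun i => v (i + 1)) ?_ ?_ (df_var 0) ?_
  · exact (df_ren (fun i => match i with | 0 => 0 | n + 1 => n + 2) hpr).congr fun v => rfl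
  · exact (df_ren (fun i => match i with | 0 => 0 | 1 => 1 | n + 2 => n + 3) hG).congr
      fun v => rfl
  · exact (df_clo hpr hx).wk

section
variable {pr : N → N} {G : N → N → N}

theorem att_unique (hi : IndP pr) {f g t s : N} (hf : Att pr G f t) (hg : Att pr G g s) (ht : Cl pr t)
    (hs : Cl pr s) (x : N) : x ∈ t → x ∈ s → ap f x = ap g x := by
  refine hi (fun x => x ∈ t → x ∈ s → ap f x = ap g x) (by simp (maxDischargeDepth := 99)) ?_ x
  intro x ih hxt hxs
  rw [hf.2 x hxt, hg.2 x hxs]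
  congr 1
  rw [hf.1.res (ht x hxt), hg.1.res (hs x hxs)]
  exact lam_congr (df_ap_c _) (df_ap_c _) fun y hy => ih y hy (ht x hxt y hy) (hs x hxs y hy)

theorem att_res {f t s : N} (hf : Att pr G f t) (hs : Cl pr s) (h : s ⊆ t) :
    Att pr G (res f s) s := by
  refine ⟨by rw [hf.1.res h]; exact isF_lam (df_ap_c _) s, fun z hz => ?_⟩
  rw [ap_res hz, hf.2 z (h z hz)]
  congr 1
  refine ZU.ext fun p => ?_
  unfold res
  rw [mem_sep (by simp (maxDischargeDepth := 99)), mem_sep (by simp (maxDischargeDepth := 99)),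
    mem_sep (by simp (maxDischargeDepth := 99))]
  constructor
  · rintro ⟨h1, x, y, h2, rfl⟩
    exact ⟨⟨h1, x, y, hs z hz x h2, rfl⟩, x, y, h2, rfl⟩
  · rintro ⟨⟨h1, -⟩, h2⟩
    exact ⟨h1, h2⟩

section
variable (hpr : DF fun v => pr (v 0)) (hG : DF fun v => G (v 0) (v 1)) (hi : IndP pr)
include hpr hG hi

theorem att_ex (x : N) : ∃ f, Att pr G f (clo pr x) := by
  have hc : DF fun v : ℕ → N => clo pr (v 0) := df_clo (pr := fun y _ => pr y) hpr (df_var 0)
  have hA : Dfn fun v : ℕ → N => Att pr G (v 0) (clo pr (v 1)) :=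
    dfn_att (pr := fun y _ => pr y) (G := fun x y _ => G x y) hpr hG (df_var 0)
      (df_clo (pr := fun y _ => pr y) hpr (df_var 1))
  refine hi (fun x => ∃ f, Att pr G f (clo pr x)) (dfn_ex (R := fun f v => Att pr G f (clo pr (v 0)))
    hA) ?_ x
  intro x ih
  -- the values at the predecessors
  have hW : DF fun v : ℕ → N => WRec pr G (v 0) :=
    df_wrec (pr := fun y _ => pr y) (G := fun x y _ => G x y) hpr hG (df_var 0)
  -- for y in the closure of a predecessor, the attempt
  have hatt : ∀ y, y ∈ pr x → ∀ z, z ∈ clo pr y → ∃ f, Att pr G f (clo pr z) := by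
    intro y hy z hz
    obtain ⟨f, hf⟩ := ih y hy
    exact ⟨_, att_res hf (cl_clo hpr hi z) (clo_mono hpr hi hz)⟩
  have hval : ∀ z f, Att pr G f (clo pr z) → WRec pr G z = ap f z := by
    intro z f hf
    unfold WRec
    congr 1
    refine the_eq hf fun g hg => ?_
    refine hg.1.ext hf.1 fun u hu => ?_
    exact att_unique hi hg hf (cl_clo hpr hi z) (cl_clo hpr hi z) u hu hu
  have hval2 : ∀ y, y ∈ pr x → ∀ z, z ∈ clo pr y → ∀ f, Att pr G f (clo pr y) →
      WRec pr G z = ap f z := by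
    intro y hy z hz f hf
    rw [hval z _ (att_res hf (cl_clo hpr hi z) (clo_mono hpr hi hz)),
      ap_res (self_mem_clo hpr hi z)]
  -- recursion equation below x
  have heq : ∀ y, y ∈ pr x → ∀ z, z ∈ clo pr y →
      WRec pr G z = G z (lam (pr z) (WRec pr G)) := by
    intro y hy z hz
    obtain ⟨f, hf⟩ := ih y hy
    rw [hval2 y hy z hz f hf, hf.2 z hz]
    congr 1
    have hzs : pr z ⊆ clo pr y := cl_clo hpr hi y z hz
    rw [hf.1.res hzs]
    exact lam_congr (df_ap_c _) hW fun u hu => (hval2 y hy u (hzs u hu) f hf).symm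
  let F : N → N := fun z => ife (z = x) (G x (lam (pr x) (WRec pr G))) (WRec pr G z)
  have hF : DF fun v : ℕ → N => F (v 0) :=
    df_ife (dfn_eq (df_var 0) (df_const x)) (df_const _) hW
  -- x is not in the closure of a predecessor
  have hx : ∀ y, y ∈ pr x → x ∈ clo pr y → False := by
    -- if so the predecessors of x would have no minimal element
    have : ∀ z, z ∈ clo pr x → ¬ ∃ y, y ∈ pr z ∧ z ∈ clo pr y := by
      intro z _
      refine hi (fun z => ¬ ∃ y, y ∈ pr z ∧ z ∈ clo pr y) ?_ ?_ z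
      · refine dfn_not (dfn_ex (dfn_and (dfn_mem (df_var 0) ?_) (dfn_mem (df_var 1) ?_)))
        · exact df1 hpr (df_var 1)
        · exact hc
      · rintro z ihz ⟨y, hy, hzy⟩
        refine ihz y hy ?_
        have h1 := hzy
        rw [clo_eq hpr hi y, mem_cup, mem_sg, mem_bU hc] at h1
        rcases h1 with rfl | ⟨u, hu, h2⟩
        · exact ⟨z, hy, self_mem_clo hpr hi z⟩
        · exact ⟨u, hu, cl_clo hpr hi u z h2 y hy⟩
    exact fun y hy h => this x (self_mem_clo hpr hi x) ⟨y, hy, h⟩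
  refine ⟨lam (clo pr x) F, isF_lam hF _, fun z hz => ?_⟩
  have hps : pr z ⊆ clo pr x := cl_clo hpr hi x z hz
  rw [ap_lam hF hz, (isF_lam hF (clo pr x)).res hps]
  have h3 : lam (pr z) (ap (lam (clo pr x) F)) = lam (pr z) (WRec pr G) := by
    refine lam_congr (df_ap_c _) hW fun u hu => ?_
    rw [ap_lam hF (hps u hu)]
    refine ife_neg ?_ _ _
    rintro rfl
    have h1 := hz
    rw [clo_eq hpr hi u, mem_cup, mem_sg, mem_bU hc] at h1
    rcases h1 with rfl | ⟨y, hy, h2⟩
    · exact hx z hu (self_mem_clo hpr hi z)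
    · exact hx y hy (cl_clo hpr hi y z h2 u hu)
  rw [h3]
  have h1 := hz
  rw [clo_eq hpr hi x, mem_cup, mem_sg, mem_bU hc] at h1
  rcases h1 with rfl | ⟨y, hy, h2⟩
  · exact ife_pos rfl _ _
  · rw [← heq y hy z h2]
    refine ife_neg ?_ _ _
    rintro rfl
    exact hx y hy h2

/-- **The recursion equation** -/
theorem wrec_eq (x : N) : WRec pr G x = G x (lam (pr x) (WRec pr G)) := by
  have hW : DF fun v : ℕ → N => WRec pr G (v 0) :=
    df_wrec (pr := fun y _ => pr y) (G := fun x y _ => G x y) hpr hG (df_var 0)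
  have hval : ∀ z f, Att pr G f (clo pr z) → WRec pr G z = ap f z := by
    intro z f hf
    unfold WRec
    congr 1
    refine the_eq hf fun g hg => ?_
    refine hg.1.ext hf.1 fun u hu => ?_
    exact att_unique hi hg hf (cl_clo hpr hi z) (cl_clo hpr hi z) u hu hu
  obtain ⟨f, hf⟩ := att_ex hpr hG hi x
  have hxs : pr x ⊆ clo pr x := cl_clo hpr hi x x (self_mem_clo hpr hi x)
  rw [hval x f hf, hf.2 x (self_mem_clo hpr hi x), hf.1.res hxs]
  congr 1
  refine lam_congr (df_ap_c _) hW fun u hu => ?_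
  have hu' : u ∈ clo pr x := hxs u hu
  rw [hval u _ (att_res hf (cl_clo hpr hi u) (clo_mono hpr hi hu')),
    ap_res (self_mem_clo hpr hi u)]

end

end

/-- induction for definable predicates implies native well-foundedness -/
theorem wf_of_indP {pr : N → N} (hpr : DF fun v => pr (v 0)) (hi : IndP pr) :
    WellFounded fun y x => y ∈ pr x := by
  have hG : DF fun v : ℕ → N => rg (v 1) := df_rg (df_var 1)
  have hW : DF fun v : ℕ → N => WRec pr (fun _ f => rg f) (v 0) :=
    df_wrec (pr := fun y _ => pr y) (G := fun _ y _ => rg y) hpr hG (df_var 0)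
  have key : ∀ x y, y ∈ pr x →
      WRec pr (fun _ f => rg f) y ∈ WRec pr (fun _ f => rg f) x := by
    intro x y hy
    rw [wrec_eq hpr hG hi x, mem_rg]
    exact ⟨y, (op_mem_lam hW).2 ⟨hy, rfl⟩⟩
  exact Subrelation.wf (fun {y x} h => key x y h)
    (InvImage.wf (WRec pr fun _ f => rg f) (ZM.wf (N := N)))

/-! ### ∈-recursion -/

/-- **∈-recursion**: `Rec G x = G x (lam x (Rec G))` -/
noncomputable def Rec (G : N → N → N) (x : N) : N := WRec (fun x => x) G x

theorem rec_eq {G : N → N → N} (hG : DF fun v => G (v 0) (v 1)) (x : N) :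
    Rec G x = G x (lam x (Rec G)) := wrec_eq (df_var 0) hG indP_id x

@[simp] theorem df_rec {G : N → N → (ℕ → N) → N} {x : (ℕ → N) → N}
    (hG : DF fun v => G (v 0) (v 1) fun i => v (i + 2)) (hx : DF x) :
    DF fun v => Rec (fun x y => G x y v) (x v) := df_wrec (pr := fun x _ => x) (df_var 0) hG hx

/-- the least transitive set which contains `x` -/
noncomputable def tcs (x : N) : N := clo (fun x => x) x

@[simp] theorem df_tcs {x : (ℕ → N) → N} (hx : DF x) : DF fun v => tcs (x v) :=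
  df_clo (pr := fun x _ => x) (df_var 0) hx

/-- `t` is transitive -/
def Tr (t : N) : Prop := ∀ x, x ∈ t → x ⊆ t

@[simp] theorem dfn_tr {t : (ℕ → N) → N} (ht : DF t) : Dfn fun v => Tr (t v) :=
  dfn1 (P := Tr) (by unfold Tr; simp (maxDischargeDepth := 99)) ht

theorem self_mem_tcs (x : N) : x ∈ tcs x := self_mem_clo (df_var 0) indP_id x

theorem tr_tcs (x : N) : Tr (tcs x) := cl_clo (df_var 0) indP_id x

theorem tcs_sub {x t : N} (ht : Tr t) (hx : x ∈ t) : tcs x ⊆ t := clo_sub (df_var 0) indP_id ht hx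

theorem tcs_eq (x : N) : tcs x = cup (sg x) (bU x tcs) := clo_eq (df_var 0) indP_id x

end ZU
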