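import Pool.Agent.ZU.Nat

/-! # ZU: transitive embeddings and absoluteness

(problem MP_ba5606_gt, project ZU; no sorry in this file)

`TrEmb j`: the map `j : N → N'` is an embedding of models of ZF with transitive image. All operations
of `Ops.lean`, `Rec.lean`, `Nat.lean` except the power set are preserved. The main cases are the
inclusions of transitive models (see `Trans.lean`). -/

universe v w

namespace ZU

open STP STP.Fml

/-- `j` is an `∈`-embedding with transitive image -/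
structure TrEmb {N : Type v} {N' : Type w} [ZM N] [ZM N'] (j : N → N') : Prop where
  inj : ∀ x y, j x = j y → x = y
  mem_iff : ∀ x y, j x ∈ j y ↔ x ∈ y
  tr : ∀ x z, z ∈ j x → ∃ y, y ∈ x ∧ z = j y

variable {N : Type v} {N' : Type w} [ZM N] [ZM N'] {j : N → N'}

namespace TrEmb

theorem mem_j (h : TrEmb j) {x : N} {z : N'} : z ∈ j x ↔ ∃ y, y ∈ x ∧ z = j y := by
  constructor
  · exact h.tr x z
  · rintro ⟨y, hy, rfl⟩
    exact (h.mem_iff _ _).2 hy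

theorem eq_iff (h : TrEmb j) {x y : N} : j x = j y ↔ x = y := ⟨h.inj x y, fun h => by rw [h]⟩

/-- to show `j a = b` it is enough to compare the elements -/
theorem eq_of (h : TrEmb j) {a : N} {b : N'} (h1 : ∀ x, x ∈ a → j x ∈ b)
    (h2 : ∀ z, z ∈ b → ∃ x, x ∈ a ∧ z = j x) : j a = b := by
  refine ext fun z => ?_
  rw [h.mem_j]
  constructor
  · rintro ⟨y, hy, rfl⟩
    exact h1 y hy
  · exact h2 z

theorem sub (h : TrEmb j) {x y : N} : j x ⊆ j y ↔ x ⊆ y := by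
  constructor
  · intro h' z hz
    exact (h.mem_iff _ _).1 (h' _ ((h.mem_iff _ _).2 hz))
  · intro h' z hz
    obtain ⟨u, hu, rfl⟩ := h.mem_j.1 hz
    exact (h.mem_iff _ _).2 (h' u hu)

theorem em (h : TrEmb j) : j ∅ = ∅ := eq_em fun z hz => by
  obtain ⟨u, hu, -⟩ := h.mem_j.1 hz
  exact not_mem_em u hu

theorem ife (_ : TrEmb j) {p p' : Prop} (hp : p ↔ p') {a b : N} :
    j (ife p a b) = ZU.ife p' (j a) (j b) := by
  by_cases hc : p
  · rw [ife_pos hc, ife_pos (hp.1 hc)]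
  · rw [ife_neg hc, ife_neg fun h => hc (hp.2 h)]

theorem up (h : TrEmb j) {x y : N} : j (up x y) = ZU.up (j x) (j y) := by
  refine h.eq_of (fun u hu => ?_) fun z hz => ?_
  · rw [mem_up] at hu ⊢
    rcases hu with rfl | rfl <;> simp
  · rw [mem_up] at hz
    rcases hz with rfl | rfl
    · exact ⟨x, by simp, rfl⟩
    · exact ⟨y, by simp, rfl⟩

theorem sg (h : TrEmb j) {x : N} : j (sg x) = ZU.sg (j x) := h.up

theorem uni (h : TrEmb j) {x : N} : j (uni x) = ZU.uni (j x) := by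
  refine h.eq_of (fun u hu => ?_) fun z hz => ?_
  · rw [mem_uni] at hu ⊢
    obtain ⟨w, hw, hu⟩ := hu
    exact ⟨j w, (h.mem_iff _ _).2 hw, (h.mem_iff _ _).2 hu⟩
  · rw [mem_uni] at hz
    obtain ⟨w, hw, hz⟩ := hz
    obtain ⟨w, hw1, rfl⟩ := h.mem_j.1 hw
    obtain ⟨z, hz1, rfl⟩ := h.mem_j.1 hz
    exact ⟨z, mem_uni.2 ⟨w, hw1, hz1⟩, rfl⟩

theorem cup (h : TrEmb j) {x y : N} : j (cup x y) = ZU.cup (j x) (j y) := by
  unfold ZU.cup
  rw [h.uni, h.up]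

theorem sep (h : TrEmb j) {x : N} {P : N → Prop} {P' : N' → Prop} (hP : Dfn fun v => P (v 0))
    (hP' : Dfn fun v => P' (v 0)) (hx : ∀ z, z ∈ x → (P z ↔ P' (j z))) :
    j (sep x P) = ZU.sep (j x) P' := by
  refine h.eq_of (fun u hu => ?_) fun z hz => ?_
  · rw [mem_sep hP] at hu
    rw [mem_sep hP', h.mem_iff]
    exact ⟨hu.1, (hx u hu.1).1 hu.2⟩
  · rw [mem_sep hP', h.mem_j] at hz
    obtain ⟨⟨u, hu, rfl⟩, hz⟩ := hz
    exact ⟨u, (mem_sep hP).2 ⟨hu, (hx u hu).2 hz⟩, rfl⟩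

theorem img (h : TrEmb j) {x : N} {F : N → N} {F' : N' → N'} (hF : DF fun v => F (v 0))
    (hF' : DF fun v => F' (v 0)) (hx : ∀ z, z ∈ x → j (F z) = F' (j z)) :
    j (img x F) = ZU.img (j x) F' := by
  refine h.eq_of (fun u hu => ?_) fun z hz => ?_
  · rw [mem_img hF] at hu
    obtain ⟨y, hy, rfl⟩ := hu
    rw [mem_img hF']
    exact ⟨j y, (h.mem_iff _ _).2 hy, hx y hy⟩
  · rw [mem_img hF'] at hz
    obtain ⟨w, hw, rfl⟩ := hz
    obtain ⟨y, hy1, rfl⟩ := h.mem_j.1 hw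
    exact ⟨F y, (mem_img hF).2 ⟨y, hy1, rfl⟩, (hx y hy1).symm⟩

theorem cap (h : TrEmb j) {x y : N} : j (cap x y) = ZU.cap (j x) (j y) :=
  h.sep (by simp (maxDischargeDepth := 99)) (by simp (maxDischargeDepth := 99))
    fun z _ => (h.mem_iff z y).symm

theorem dif (h : TrEmb j) {x y : N} : j (dif x y) = ZU.dif (j x) (j y) :=
  h.sep (by simp (maxDischargeDepth := 99)) (by simp (maxDischargeDepth := 99))
    fun z _ => not_congr (h.mem_iff z y).symm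

theorem bU (h : TrEmb j) {x : N} {F : N → N} {F' : N' → N'} (hF : DF fun v => F (v 0))
    (hF' : DF fun v => F' (v 0)) (hx : ∀ z, z ∈ x → j (F z) = F' (j z)) :
    j (bU x F) = ZU.bU (j x) F' := by
  unfold ZU.bU
  rw [h.uni, h.img hF hF' hx]

theorem op (h : TrEmb j) {x y : N} : j (op x y) = ZU.op (j x) (j y) := by
  unfold ZU.op
  rw [h.up, h.up, h.up]

theorem op_mem (h : TrEmb j) {x y f : N} : ZU.op (j x) (j y) ∈ j f ↔ ZU.op x y ∈ f := by
  rw [← h.op, h.mem_iff]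

/-- elements of pairs in the image are in the image -/
theorem of_op (h : TrEmb j) {a b : N'} {p : N} (hp : j p = ZU.op a b) :
    ∃ x y, a = j x ∧ b = j y ∧ p = ZU.op x y := by
  have h1 : ZU.up a b ∈ j p := by rw [hp]; unfold ZU.op; simp
  obtain ⟨u, hu, h2⟩ := h.mem_j.1 h1
  have h3 : a ∈ j u := by rw [← h2]; simp
  have h4 : b ∈ j u := by rw [← h2]; simp
  obtain ⟨x, -, rfl⟩ := h.mem_j.1 h3
  obtain ⟨y, -, rfl⟩ := h.mem_j.1 h4
  exact ⟨x, y, rfl, rfl, h.inj _ _ (by rw [hp, h.op])⟩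

theorem of_op_mem (h : TrEmb j) {a b : N'} {f : N} (hp : ZU.op a b ∈ j f) :
    ∃ x y, a = j x ∧ b = j y ∧ ZU.op x y ∈ f := by
  obtain ⟨p, hp, h1⟩ := h.mem_j.1 hp
  obtain ⟨x, y, rfl, rfl, rfl⟩ := h.of_op h1.symm
  exact ⟨x, y, rfl, rfl, hp⟩

theorem the (h : TrEmb j) {P : N → Prop} {P' : N' → Prop} (hP : ∀ z, P' z ↔ ∃ y, P y ∧ z = j y) :
    j (the P) = ZU.the P' := by
  by_cases hc : ∃! z, P z
  · obtain ⟨z, hz, hz'⟩ := hc
    rw [the_eq hz hz']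
    refine (the_eq ((hP _).2 ⟨z, hz, rfl⟩) fun u hu => ?_).symm
    obtain ⟨y, hy, rfl⟩ := (hP _).1 hu
    rw [hz' y hy]
  · rw [the_none hc, h.em, the_none]
    rintro ⟨z, hz, hz'⟩
    obtain ⟨y, hy, rfl⟩ := (hP _).1 hz
    exact hc ⟨y, hy, fun u hu => h.inj _ _ (hz' _ ((hP _).2 ⟨u, hu, rfl⟩))⟩

theorem fst (h : TrEmb j) {p : N} : j (fst p) = ZU.fst (j p) := by
  refine h.the fun z => ?_
  constructor
  · rintro ⟨y, hy⟩
    obtain ⟨x, y, rfl, rfl, rfl⟩ := h.of_op hy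
    exact ⟨x, ⟨y, rfl⟩, rfl⟩
  · rintro ⟨x, ⟨y, rfl⟩, rfl⟩
    exact ⟨j y, h.op⟩

theorem snd (h : TrEmb j) {p : N} : j (snd p) = ZU.snd (j p) := by
  refine h.the fun z => ?_
  constructor
  · rintro ⟨y, hy⟩
    obtain ⟨x, y, rfl, rfl, rfl⟩ := h.of_op hy
    exact ⟨y, ⟨x, rfl⟩, rfl⟩
  · rintro ⟨x, ⟨y, rfl⟩, rfl⟩
    exact ⟨j y, h.op⟩

theorem prd (h : TrEmb j) {x y : N} : j (prd x y) = ZU.prd (j x) (j y) := by
  refine h.eq_of (fun u hu => ?_) fun z hz => ?_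
  · obtain ⟨a, b, ha, hb, rfl⟩ := mem_prd.1 hu
    rw [h.op, op_mem_prd, h.mem_iff, h.mem_iff]
    exact ⟨ha, hb⟩
  · obtain ⟨a, b, ha, hb, rfl⟩ := mem_prd.1 hz
    obtain ⟨a, ha1, rfl⟩ := h.mem_j.1 ha
    obtain ⟨b, hb1, rfl⟩ := h.mem_j.1 hb
    exact ⟨ZU.op a b, op_mem_prd.2 ⟨ha1, hb1⟩, h.op.symm⟩

theorem dm (h : TrEmb j) {f : N} : j (dm f) = ZU.dm (j f) := by
  refine h.eq_of (fun u hu => ?_) fun z hz => ?_
  · obtain ⟨y, hy⟩ := mem_dm.1 hu
    exact mem_dm.2 ⟨j y, h.op_mem.2 hy⟩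
  · obtain ⟨y, hy⟩ := mem_dm.1 hz
    obtain ⟨x, y, rfl, rfl, hp⟩ := h.of_op_mem hy
    exact ⟨x, mem_dm.2 ⟨y, hp⟩, rfl⟩

theorem rg (h : TrEmb j) {f : N} : j (rg f) = ZU.rg (j f) := by
  refine h.eq_of (fun u hu => ?_) fun z hz => ?_
  · obtain ⟨y, hy⟩ := ZU.mem_rg.1 hu
    exact ZU.mem_rg.2 ⟨j y, h.op_mem.2 hy⟩
  · obtain ⟨y, hy⟩ := ZU.mem_rg.1 hz
    obtain ⟨x, y, rfl, rfl, hp⟩ := h.of_op_mem hy
    exact ⟨y, ZU.mem_rg.2 ⟨x, hp⟩, rfl⟩

theorem ap (h : TrEmb j) {f x : N} : j (ap f x) = ZU.ap (j f) (j x) := by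
  refine h.the fun z => ?_
  constructor
  · intro hz
    obtain ⟨x', y, hx, rfl, hp⟩ := h.of_op_mem hz
    obtain rfl := h.inj _ _ hx
    exact ⟨y, hp, rfl⟩
  · rintro ⟨y, hy, rfl⟩
    exact h.op_mem.2 hy

theorem lam (h : TrEmb j) {x : N} {F : N → N} {F' : N' → N'} (hF : DF fun v => F (v 0))
    (hF' : DF fun v => F' (v 0)) (hx : ∀ z, z ∈ x → j (F z) = F' (j z)) :
    j (lam x F) = ZU.lam (j x) F' := by
  refine h.img (df_op (df_var 0) hF) (df_op (df_var 0) hF') fun z hz => ?_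
  rw [h.op, hx z hz]

theorem isF (h : TrEmb j) {f a : N} : IsF (j f) (j a) ↔ IsF f a := by
  unfold IsF
  rw [← h.eq_iff, h.lam (F' := ZU.ap (j f)) (df_ap_c _) (df_ap_c _) fun z _ => h.ap]

theorem res (h : TrEmb j) {f a : N} : j (res f a) = ZU.res (j f) (j a) := by
  refine h.sep (by simp (maxDischargeDepth := 99)) (by simp (maxDischargeDepth := 99)) fun z _ => ?_
  constructor
  · rintro ⟨x, y, hx, rfl⟩
    exact ⟨j x, j y, (h.mem_iff _ _).2 hx, h.op⟩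
  · rintro ⟨x', y', hx, h'⟩
    obtain ⟨x, y, rfl, rfl, rfl⟩ := h.of_op h'
    exact ⟨x, y, (h.mem_iff _ _).1 hx, rfl⟩

theorem sc (h : TrEmb j) {x : N} : j (sc x) = ZU.sc (j x) := by
  unfold ZU.sc
  rw [h.cup, h.sg]

theorem nt (h : TrEmb j) (n : ℕ) : j (nt n) = ZU.nt n := by
  induction n with
  | zero => exact h.em
  | succ n ih => rw [nt_succ, nt_succ, h.sc, ih]

theorem om (h : TrEmb j) : j om = ZU.om := by
  refine h.eq_of (fun u hu => ?_) fun z hz => ?_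
  · obtain ⟨n, rfl⟩ := mem_om.1 hu
    rw [h.nt]
    exact nt_mem_om n
  · obtain ⟨n, rfl⟩ := mem_om.1 hz
    exact ⟨ZU.nt n, nt_mem_om n, (h.nt n).symm⟩

theorem fi (h : TrEmb j) {x : N} : Fi (j x) ↔ Fi x := by
  rw [fi_iff, fi_iff]
  have : {z | z ∈ j x} = j '' {z | z ∈ x} := by
    ext z
    simp only [Set.mem_ofPred_eq, Set.mem_image]
    rw [h.mem_j]
    exact ⟨fun ⟨y, h1, h2⟩ => ⟨y, h1, h2.symm⟩, fun ⟨y, h1, h2⟩ => ⟨y, h1, h2.symm⟩⟩
  rw [this]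
  exact Set.finite_image_iff (fun x _ y _ hxy => h.inj x y hxy)

theorem trs (h : TrEmb j) {t : N} : Tr (j t) ↔ Tr t := by
  constructor
  · intro h' x hx
    exact h.sub.1 (h' _ ((h.mem_iff _ _).2 hx))
  · intro h' x hx
    obtain ⟨x, hx1, rfl⟩ := h.mem_j.1 hx
    exact h.sub.2 (h' x hx1)

theorem cl (h : TrEmb j) {pr : N → N} {pr' : N' → N'} (hj : ∀ x, j (pr x) = pr' (j x)) {t : N} :
    Cl pr' (j t) ↔ Cl pr t := by
  constructor
  · intro h' x hx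
    have := h' _ ((h.mem_iff _ _).2 hx)
    rw [← hj] at this
    exact h.sub.1 this
  · intro h' x hx
    obtain ⟨x, hx1, rfl⟩ := h.mem_j.1 hx
    rw [← hj]
    exact h.sub.2 (h' x hx1)

section
variable {pr : N → N} {pr' : N' → N'}

/-- the closure under `pr` is absolute -/
theorem clo (h : TrEmb j) (hpr : DF fun v => pr (v 0)) (hpr' : DF fun v => pr' (v 0))
    (hi : IndP pr) (hi' : IndP pr') (hj : ∀ x, j (pr x) = pr' (j x)) (x : N) :
    j (clo pr x) = ZU.clo pr' (j x) := by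
  refine (wf_of_indP hpr hi).induction (C := fun x => j (ZU.clo pr x) = ZU.clo pr' (j x)) x ?_
  intro x ih
  rw [clo_eq hpr hi x, clo_eq hpr' hi' (j x), h.cup, h.sg, ← hj x]
  rw [h.bU (F' := ZU.clo pr') (df_clo (pr := fun y _ => pr y) hpr (df_var 0))
    (df_clo (pr := fun y _ => pr' y) hpr' (df_var 0)) ih]

/-- **recursion is absolute** -/
theorem wrec (h : TrEmb j) {G : N → N → N} {G' : N' → N' → N'} (hpr : DF fun v => pr (v 0))
    (hG : DF fun v => G (v 0) (v 1)) (hpr' : DF fun v => pr' (v 0))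
    (hG' : DF fun v => G' (v 0) (v 1)) (hi : IndP pr) (hi' : IndP pr')
    (hj : ∀ x, j (pr x) = pr' (j x)) (hGG : ∀ x f, j (G x f) = G' (j x) (j f)) (x : N) :
    j (WRec pr G x) = WRec pr' G' (j x) := by
  refine (wf_of_indP hpr hi).induction (C := fun x => j (WRec pr G x) = WRec pr' G' (j x)) x ?_
  intro x ih
  rw [wrec_eq hpr hG hi x, wrec_eq hpr' hG' hi' (j x), hGG, ← hj x]
  congr 1
  exact h.lam (df_wrec (pr := fun y _ => pr y) (G := fun x y _ => G x y) hpr hG (df_var 0))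
    (df_wrec (pr := fun y _ => pr' y) (G := fun x y _ => G' x y) hpr' hG' (df_var 0)) ih

/-- version of `wrec` in which the step functions are compared only at the arguments which occur -/
theorem wrec' (h : TrEmb j) {G : N → N → N} {G' : N' → N' → N'} (hpr : DF fun v => pr (v 0))
    (hG : DF fun v => G (v 0) (v 1)) (hpr' : DF fun v => pr' (v 0))
    (hG' : DF fun v => G' (v 0) (v 1)) (hi : IndP pr) (hi' : IndP pr')
    (hj : ∀ x, j (pr x) = pr' (j x))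
    (hGG : ∀ x f, IsF f (pr x) → j (G x f) = G' (j x) (j f)) (x : N) :
    j (WRec pr G x) = WRec pr' G' (j x) := by
  refine (wf_of_indP hpr hi).induction (C := fun x => j (WRec pr G x) = WRec pr' G' (j x)) x ?_
  intro x ih
  have hW := df_wrec (pr := fun y _ => pr y) (G := fun x y _ => G x y) hpr hG (df_var 0)
  rw [wrec_eq hpr hG hi x, wrec_eq hpr' hG' hi' (j x), hGG _ _ (isF_lam hW _), ← hj x]
  congr 1
  exact h.lam hW
    (df_wrec (pr := fun y _ => pr' y) (G := fun x y _ => G' x y) hpr' hG' (df_var 0)) ih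

end

theorem tcs (h : TrEmb j) (x : N) : j (tcs x) = ZU.tcs (j x) :=
  h.clo (df_var 0) (df_var 0) indP_id indP_id (fun _ => rfl) x

/-- **∈-recursion is absolute** -/
theorem recE (h : TrEmb j) {G : N → N → N} {G' : N' → N' → N'}
    (hG : DF fun v => G (v 0) (v 1)) (hG' : DF fun v => G' (v 0) (v 1))
    (hGG : ∀ x f, IsF f x → j (G x f) = G' (j x) (j f)) (x : N) :
    j (Rec G x) = Rec G' (j x) :=
  h.wrec' (df_var 0) hG (df_var 0) hG' indP_id indP_id (fun _ => rfl) hGG x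

theorem itr (h : TrEmb j) {F : N → N → N} {F' : N' → N' → N'}
    (hF : DF fun v => F (v 0) (v 1)) (hF' : DF fun v => F' (v 0) (v 1))
    (hFF : ∀ x y, j (F x y) = F' (j x) (j y)) (a x : N) :
    j (itr F a x) = ZU.itr F' (j a) (j x) := by
  unfold ZU.itr
  refine h.recE (df_itr_aux hF a) (df_itr_aux hF' (j a)) (fun x f _ => ?_) x
  rw [h.ife (p' := j x = ∅) ?_, hFF, h.ap, h.uni]
  rw [← h.em, h.eq_iff]

end TrEmb

theorem TrEmb.id : TrEmb (fun x : N => x) := ⟨fun _ _ h => h, fun _ _ => Iff.rfl,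
  fun _ z hz => ⟨z, hz, rfl⟩⟩

end ZU
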