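import Pool.Agent.STP.FLang
import Pool.Agent.CPI.ATool

/-! # ZU: models of ZF, definability with parameters, semantically

(problem MP_ba5606_gt, project ZU; no sorry in this file)

`N` is a well-founded model of ZF (class `ZM N`; notation `x ∈ y`, `x ⊆ y`). A *context* is a valuation
`v : ℕ → N`; a predicate `P` on contexts is `Dfn P` if it is given by a first order formula with
parameters; a function `t` from contexts to `N` is `DF t` if its graph is. All rules have the form that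
`simp` can use: under a quantifier the new bound variable is the variable `v 0` and the old context is
`fun i => v (i + 1)`. So `by simp` proves goals like `Dfn fun v => ∃ x, x ∈ v 1 ∧ ∀ y, y ∈ x → y = a`. -/

universe v

namespace ZU

open STP STP.Fml

/-- the axioms of ZF -/
structure ZFA {N : Type v} (E : N → N → Prop) : Prop where
  ext : ∀ x y, (∀ z, E z x ↔ E z y) → x = y
  pair : ∀ x y, ∃ z, ∀ w, E w z ↔ w = x ∨ w = y
  union : ∀ x, ∃ y, ∀ z, E z y ↔ ∃ w, E w x ∧ E z w
  power : ∀ x, ∃ y, ∀ z, E z y ↔ ∀ w, E w z → E w x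
  infinity : ∃ x, (∃ y, E y x ∧ ∀ z, ¬ E z y) ∧
    ∀ y, E y x → ∃ z, E z x ∧ ∀ w, E w z ↔ E w y ∨ w = y
  separation : ∀ (φ : Fml) (v : ℕ → N) (x : N), ∃ y, ∀ z, E z y ↔ E z x ∧ sat E φ (cns z v)
  replacement : ∀ (φ : Fml) (v : ℕ → N) (x : N),
    (∀ z, E z x → ∃! w, sat E φ (cns w (cns z v))) →
      ∃ y, ∀ w, E w y ↔ ∃ z, E z x ∧ sat E φ (cns w (cns z v))

/-- a well-founded model of ZF -/
class ZM (N : Type v) where
  E : N → N → Prop
  wf : WellFounded E
  ax : ZFA E

variable {N : Type v} [ZM N]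

instance : Membership N N := ⟨fun y x => ZM.E x y⟩
instance : HasSubset N := ⟨fun x y => ∀ z, z ∈ x → z ∈ y⟩

theorem E_iff {x y : N} : ZM.E x y ↔ x ∈ y := Iff.rfl
theorem sub_iff {x y : N} : x ⊆ y ↔ ∀ z, z ∈ x → z ∈ y := Iff.rfl

instance : Nonempty N := by
  obtain ⟨x, -⟩ := (ZM.ax (N := N)).infinity
  exact ⟨x⟩

theorem ext {x y : N} (h : ∀ z, z ∈ x ↔ z ∈ y) : x = y := ZM.ax.ext x y h

theorem sub_antisymm {x y : N} (h : x ⊆ y) (h' : y ⊆ x) : x = y :=
  ext fun z => ⟨h z, h' z⟩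

/-- **∈-induction** (for arbitrary predicates) -/
theorem ind {P : N → Prop} (h : ∀ x, (∀ y, y ∈ x → P y) → P x) (x : N) : P x :=
  ZM.wf.induction x h

theorem not_mem_self (x : N) : ¬ x ∈ x := by
  refine ind (P := fun x => ¬ x ∈ x) ?_ x
  intro x ih hx
  exact ih x hx hx

theorem mem_asymm {x y : N} (h : x ∈ y) : ¬ y ∈ x := by
  have key : ∀ x : N, ∀ y, x ∈ y → ¬ y ∈ x := by
    intro x
    refine ind (P := fun x => ∀ y, x ∈ y → ¬ y ∈ x) ?_ x
    intro x ih y hxy hyx
    exact ih y hyx x hyx hxy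
  exact key x y h

/-- the variables `2 i` are the context `v`, the variables `2 i + 1` are the parameters `c` -/
def mix (v c : ℕ → N) : ℕ → N := fun i => if i % 2 = 0 then v (i / 2) else c (i / 2)

theorem mix_even (v c : ℕ → N) (i : ℕ) : mix v c (2 * i) = v i := by
  have h1 : 2 * i % 2 = 0 := by omega
  have h2 : 2 * i / 2 = i := by omega
  simp [mix, h1, h2]

theorem mix_odd (v c : ℕ → N) (i : ℕ) : mix v c (2 * i + 1) = c i := by
  have h1 : (2 * i + 1) % 2 = 1 := by omega
  have h2 : (2 * i + 1) / 2 = i := by omega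
  simp [mix, h1, h2]

/-- `P` is definable by a formula with parameters. -/
def Dfn (P : (ℕ → N) → Prop) : Prop :=
  ∃ (φ : Fml) (c : ℕ → N), ∀ v, P v ↔ sat ZM.E φ (mix v c)

/-- The graph of `t` is definable by a formula with parameters. -/
def DF (t : (ℕ → N) → N) : Prop := Dfn fun v => v 0 = t fun i => v (i + 1)

theorem Dfn.congr {P Q : (ℕ → N) → Prop} (h : Dfn P) (hQ : ∀ v, Q v ↔ P v) : Dfn Q := by
  have : Q = P := funext fun v => propext (hQ v)
  rwa [this]

theorem DF.congr {t s : (ℕ → N) → N} (h : DF t) (hs : ∀ v, s v = t v) : DF s := by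
  have : s = t := funext hs
  rwa [this]

/-- renaming of the parameters to the even parameters -/
def rn1 (i : ℕ) : ℕ := if i % 2 = 0 then i else 4 * (i / 2) + 1

/-- renaming of the parameters to the odd parameters -/
def rn2 (i : ℕ) : ℕ := if i % 2 = 0 then i else 4 * (i / 2) + 3

theorem mix_rn1 (v c d : ℕ → N) : mix v (mix c d) ∘ rn1 = mix v c := by
  funext i
  rcases Nat.mod_two_eq_zero_or_one i with h | h
  · have h1 : i = 2 * (i / 2) := by omega
    simp only [Function.comp_apply, rn1, h, if_true]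
    rw [h1, mix_even, mix_even]
  · have h1 : i = 2 * (i / 2) + 1 := by omega
    have h2 : rn1 i = 2 * (2 * (i / 2)) + 1 := by
      unfold rn1
      rw [if_neg (by omega)]
      omega
    rw [Function.comp_apply, h2, mix_odd, mix_even]
    conv_rhs => rw [h1, mix_odd]

theorem mix_rn2 (v c d : ℕ → N) : mix v (mix c d) ∘ rn2 = mix v d := by
  funext i
  rcases Nat.mod_two_eq_zero_or_one i with h | h
  · have h1 : i = 2 * (i / 2) := by omega
    simp only [Function.comp_apply, rn2, h, if_true]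
    rw [h1, mix_even, mix_even]
  · have h1 : i = 2 * (i / 2) + 1 := by omega
    have h2 : rn2 i = 2 * (2 * (i / 2) + 1) + 1 := by
      unfold rn2
      rw [if_neg (by omega)]
      omega
    rw [Function.comp_apply, h2, mix_odd, mix_odd]
    conv_rhs => rw [h1, mix_odd]

@[simp] theorem dfn_imp {P Q : (ℕ → N) → Prop} (hP : Dfn P) (hQ : Dfn Q) :
    Dfn fun v => P v → Q v := by
  obtain ⟨φ, c, h⟩ := hP
  obtain ⟨ψ, d, h'⟩ := hQ
  refine ⟨.imp (CPI.ren rn1 φ) (CPI.ren rn2 ψ), mix c d, fun v => ?_⟩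
  beta_reduce
  rw [sat_imp, CPI.sat_ren, CPI.sat_ren, mix_rn1, mix_rn2, h, h']

@[simp] theorem dfn_const (p : Prop) : Dfn fun _ : ℕ → N => p := by
  by_cases h : p
  · exact ⟨.imp .bot .bot, fun _ => Classical.arbitrary N, fun v => by simp [h]⟩
  · exact ⟨.bot, fun _ => Classical.arbitrary N, fun v => by simp [h]⟩

@[simp] theorem dfn_not {P : (ℕ → N) → Prop} (hP : Dfn P) : Dfn fun v => ¬ P v := by
  obtain ⟨φ, c, h⟩ := hP
  refine ⟨φ.no, c, fun v => ?_⟩
  beta_reduce
  rw [sat_no, h]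

@[simp] theorem dfn_or {P Q : (ℕ → N) → Prop} (hP : Dfn P) (hQ : Dfn Q) :
    Dfn fun v => P v ∨ Q v :=
  (dfn_imp (dfn_not hP) hQ).congr fun v => by tauto

@[simp] theorem dfn_and {P Q : (ℕ → N) → Prop} (hP : Dfn P) (hQ : Dfn Q) :
    Dfn fun v => P v ∧ Q v :=
  (dfn_not (dfn_imp hP (dfn_not hQ))).congr fun v => by tauto

@[simp] theorem dfn_iff {P Q : (ℕ → N) → Prop} (hP : Dfn P) (hQ : Dfn Q) :
    Dfn fun v => P v ↔ Q v :=
  (dfn_and (dfn_imp hP hQ) (dfn_imp hQ hP)).congr fun v => by tauto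

/-- renaming for a quantifier -/
def rnq (n : ℕ) : ℕ := if n = 0 then 0 else if n % 2 = 0 then n - 1 else n + 1

theorem cns_mix_rnq (x : N) (v c : ℕ → N) : cns x (mix v c) ∘ rnq = mix (cns x v) c := by
  funext n
  rcases Nat.eq_zero_or_pos n with rfl | hn
  · rfl
  rcases Nat.mod_two_eq_zero_or_one n with h | h
  · have h1 : rnq n = 2 * (n / 2 - 1) + 1 := by
      unfold rnq
      rw [if_neg (by omega), if_pos h]
      omega
    have h2 : n = 2 * (n / 2 - 1 + 1) := by omega
    rw [Function.comp_apply, h1, cns_succ, mix_even]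
    conv_rhs => rw [h2, mix_even, cns_succ]
  · have h1 : rnq n = (2 * (n / 2) + 1) + 1 := by
      unfold rnq
      rw [if_neg (by omega), if_neg (by omega)]
      omega
    have h2 : n = 2 * (n / 2) + 1 := by omega
    rw [Function.comp_apply, h1, cns_succ, mix_odd]
    conv_rhs => rw [h2, mix_odd]

theorem tail_cns (x : N) (v : ℕ → N) : (fun i => cns x v (i + 1)) = v := rfl

@[simp] theorem dfn_all {R : N → (ℕ → N) → Prop}
    (h : Dfn fun v => R (v 0) fun i => v (i + 1)) : Dfn fun v => ∀ x, R x v := by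
  obtain ⟨φ, c, h⟩ := h
  refine ⟨.all (CPI.ren rnq φ), c, fun v => ?_⟩
  beta_reduce
  rw [sat_all]
  refine forall_congr' fun x => ?_
  rw [CPI.sat_ren, cns_mix_rnq, ← h]
  rfl

@[simp] theorem dfn_ex {R : N → (ℕ → N) → Prop}
    (h : Dfn fun v => R (v 0) fun i => v (i + 1)) : Dfn fun v => ∃ x, R x v :=
  (dfn_not (dfn_all (R := fun x v => ¬ R x v) (dfn_not h))).congr fun v => by push Not; rfl

theorem dfn_ren {P : (ℕ → N) → Prop} (r : ℕ → ℕ) (h : Dfn P) :
    Dfn fun v => P fun i => v (r i) := by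
  obtain ⟨φ, c, h⟩ := h
  refine ⟨CPI.ren (fun n => if n % 2 = 0 then 2 * r (n / 2) else n) φ, c, fun v => ?_⟩
  beta_reduce
  rw [h, CPI.sat_ren]
  have : mix v c ∘ (fun n => if n % 2 = 0 then 2 * r (n / 2) else n) =
      mix (fun i => v (r i)) c := by
    funext n
    rcases Nat.mod_two_eq_zero_or_one n with h | h
    · have h2 : n = 2 * (n / 2) := by omega
      rw [Function.comp_apply]
      simp only [h, if_true]
      rw [mix_even]
      conv_rhs => rw [h2, mix_even]
    · have h2 : n = 2 * (n / 2) + 1 := by omega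
      rw [Function.comp_apply]
      simp only [h]
      rw [h2, mix_odd]
      simp [mix_odd]
  rw [this]

theorem df_ren {t : (ℕ → N) → N} (r : ℕ → ℕ) (h : DF t) : DF fun v => t fun i => v (r i) :=
  (dfn_ren (fun i => match i with | 0 => 0 | n + 1 => r n + 1) h).congr fun v => Iff.rfl

/-- weakening -/
theorem Dfn.wk {P : (ℕ → N) → Prop} (h : Dfn P) : Dfn fun v => P fun i => v (i + 1) :=
  dfn_ren (fun i => i + 1) h

/-- weakening -/
theorem DF.wk {t : (ℕ → N) → N} (h : DF t) : DF fun v => t fun i => v (i + 1) :=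
  df_ren (fun i => i + 1) h

theorem dfn_mem_var (i j : ℕ) : Dfn fun v : ℕ → N => v i ∈ v j :=
  ⟨.mem (2 * i) (2 * j), fun _ => Classical.arbitrary N, fun v => by
    rw [sat_mem, mix_even, mix_even]; rfl⟩

theorem dfn_eq_var (i j : ℕ) : Dfn fun v : ℕ → N => v i = v j :=
  ⟨.eq (2 * i) (2 * j), fun _ => Classical.arbitrary N, fun v => by
    rw [sat_eq, mix_even, mix_even]⟩

@[simp] theorem df_const (c : N) : DF fun _ : ℕ → N => c :=
  ⟨.eq 0 1, fun _ => c, fun v => by
    have h1 := mix_even v (fun _ => c) 0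
    have h2 := mix_odd v (fun _ => c) 0
    rw [Nat.mul_zero] at h1 h2
    rw [sat_eq, h1, h2]⟩

@[simp] theorem df_var (i : ℕ) : DF fun v : ℕ → N => v i := dfn_eq_var 0 (i + 1)

@[simp] theorem dfn_eq {s t : (ℕ → N) → N} (hs : DF s) (ht : DF t) : Dfn fun v => s v = t v :=
  (dfn_ex (R := fun x v => x = s v ∧ x = t v) (dfn_and hs ht)).congr fun v =>
    ⟨fun h => ⟨s v, rfl, h⟩, fun ⟨_, h1, h2⟩ => h1.symm.trans h2⟩

@[simp] theorem dfn_mem {s t : (ℕ → N) → N} (hs : DF s) (ht : DF t) : Dfn fun v => s v ∈ t v :=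
  (dfn_ex (R := fun x v => x = s v ∧ ∃ y, y = t v ∧ x ∈ y) (dfn_and hs
    (dfn_ex (R := fun y v => y = t (fun i => v (i + 1)) ∧ v 0 ∈ y)
      (dfn_and (df_ren (fun i => i + 1) ht) (dfn_mem_var 1 0))))).congr fun v =>
    ⟨fun h => ⟨s v, rfl, t v, rfl, h⟩, fun ⟨_, h1, _, h2, h3⟩ => by rw [← h1, ← h2]; exact h3⟩

@[simp] theorem dfn_sub {s t : (ℕ → N) → N} (hs : DF s) (ht : DF t) : Dfn fun v => s v ⊆ t v :=
  dfn_all (R := fun z v => z ∈ s v → z ∈ t v)
    (dfn_imp (dfn_mem (df_var 0) hs.wk) (dfn_mem (df_var 0) ht.wk))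

/-- a formula whose variables are replaced by definable functions -/
theorem dfn_sat (φ : Fml) : ∀ w : ℕ → (ℕ → N) → N, (∀ i, DF (w i)) →
    Dfn fun v => sat ZM.E φ fun i => w i v := by
  induction φ with
  | mem i j => exact fun w hw => dfn_mem (hw i) (hw j)
  | eq i j => exact fun w hw => dfn_eq (hw i) (hw j)
  | bot => exact fun w hw => dfn_const False
  | imp φ ψ h1 h2 => exact fun w hw => dfn_imp (h1 w hw) (h2 w hw)
  | all φ h1 =>
    intro w hw
    refine (dfn_all (R := fun x v => sat ZM.E φ (cns x fun i => w i v)) ?_).congr fun v => Iff.rfl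
    refine (h1 (fun i v => match i with | 0 => v 0 | n + 1 => w n fun j => v (j + 1)) ?_).congr
      fun v => ?_
    · intro i
      cases i with
      | zero => exact df_var 0
      | succ n => exact (hw n).wk
    · have : (cns (v 0) fun i => w i fun j => v (j + 1)) = fun i => (match i with
          | 0 => v 0 | n + 1 => w n fun j => v (j + 1) : N) := by
        funext i
        cases i <;> rfl
      beta_reduce
      rw [this]

/-- **Substitution** of definable functions for all variables -/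
theorem dfn_subst {P : (ℕ → N) → Prop} (h : Dfn P) {w : ℕ → (ℕ → N) → N} (hw : ∀ i, DF (w i)) :
    Dfn fun v => P fun i => w i v := by
  obtain ⟨φ, c, h⟩ := h
  refine (dfn_sat φ (fun i v => mix (fun j => w j v) c i) ?_).congr fun v => h _
  intro i
  rcases Nat.mod_two_eq_zero_or_one i with h | h
  · have h2 : i = 2 * (i / 2) := by omega
    refine (hw (i / 2)).congr fun v => ?_
    rw [h2, mix_even]
    congr 1
    omega
  · have h2 : i = 2 * (i / 2) + 1 := by omega
    refine (df_const (c (i / 2))).congr fun v => ?_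
    rw [h2, mix_odd]
    congr 1
    omega

theorem df_subst {t : (ℕ → N) → N} (h : DF t) {w : ℕ → (ℕ → N) → N} (hw : ∀ i, DF (w i)) :
    DF fun v => t fun i => w i v := by
  refine (dfn_subst (w := fun i v => match i with | 0 => v 0 | n + 1 => w n fun j => v (j + 1))
    h ?_).congr fun v => Iff.rfl
  intro i
  cases i with
  | zero => exact df_var 0
  | succ n => exact (hw n).wk

/-- the context `a, a₁, ...` -/
theorem dfn1 {P : N → Prop} (h : Dfn fun v => P (v 0)) {s : (ℕ → N) → N} (hs : DF s) :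
    Dfn fun v => P (s v) :=
  dfn_subst (w := fun _ => s) h fun _ => hs

theorem df1 {F : N → N} (h : DF fun v => F (v 0)) {s : (ℕ → N) → N} (hs : DF s) :
    DF fun v => F (s v) :=
  df_subst (w := fun _ => s) h fun _ => hs

/-- lists of definable functions as substitutions -/
def sb (l : List ((ℕ → N) → N)) : ℕ → (ℕ → N) → N := fun i => l.getD i fun v => v 0

theorem sb_df {l : List ((ℕ → N) → N)} (h : ∀ t ∈ l, DF t) (i : ℕ) : DF (sb l i) := by
  unfold sb
  rw [List.getD_eq_getElem?_getD]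
  rcases hl : l[i]? with _ | t
  · exact df_var 0
  · exact h t (List.mem_of_getElem? hl)

theorem dfn2 {P : N → N → Prop} (h : Dfn fun v => P (v 0) (v 1)) {s t : (ℕ → N) → N}
    (hs : DF s) (ht : DF t) : Dfn fun v => P (s v) (t v) :=
  dfn_subst (w := sb [s, t]) h (sb_df (by simp [hs, ht]))

theorem df2 {F : N → N → N} (h : DF fun v => F (v 0) (v 1)) {s t : (ℕ → N) → N}
    (hs : DF s) (ht : DF t) : DF fun v => F (s v) (t v) :=
  df_subst (w := sb [s, t]) h (sb_df (by simp [hs, ht]))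

theorem dfn3 {P : N → N → N → Prop} (h : Dfn fun v => P (v 0) (v 1) (v 2))
    {s t r : (ℕ → N) → N} (hs : DF s) (ht : DF t) (hr : DF r) :
    Dfn fun v => P (s v) (t v) (r v) :=
  dfn_subst (w := sb [s, t, r]) h (sb_df (by simp [hs, ht, hr]))

theorem df3 {F : N → N → N → N} (h : DF fun v => F (v 0) (v 1) (v 2))
    {s t r : (ℕ → N) → N} (hs : DF s) (ht : DF t) (hr : DF r) :
    DF fun v => F (s v) (t v) (r v) :=
  df_subst (w := sb [s, t, r]) h (sb_df (by simp [hs, ht, hr]))

theorem dfn4 {P : N → N → N → N → Prop} (h : Dfn fun v => P (v 0) (v 1) (v 2) (v 3))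
    {s t r q : (ℕ → N) → N} (hs : DF s) (ht : DF t) (hr : DF r) (hq : DF q) :
    Dfn fun v => P (s v) (t v) (r v) (q v) :=
  dfn_subst (w := sb [s, t, r, q]) h (sb_df (by simp [hs, ht, hr, hq]))

theorem df4 {F : N → N → N → N → N} (h : DF fun v => F (v 0) (v 1) (v 2) (v 3))
    {s t r q : (ℕ → N) → N} (hs : DF s) (ht : DF t) (hr : DF r) (hq : DF q) :
    DF fun v => F (s v) (t v) (r v) (q v) :=
  df_subst (w := sb [s, t, r, q]) h (sb_df (by simp [hs, ht, hr, hq]))

theorem dfn5 {P : N → N → N → N → N → Prop} (h : Dfn fun v => P (v 0) (v 1) (v 2) (v 3) (v 4))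
    {s t r q p : (ℕ → N) → N} (hs : DF s) (ht : DF t) (hr : DF r) (hq : DF q) (hp : DF p) :
    Dfn fun v => P (s v) (t v) (r v) (q v) (p v) :=
  dfn_subst (w := sb [s, t, r, q, p]) h (sb_df (by simp [hs, ht, hr, hq, hp]))

theorem df5 {F : N → N → N → N → N → N} (h : DF fun v => F (v 0) (v 1) (v 2) (v 3) (v 4))
    {s t r q p : (ℕ → N) → N} (hs : DF s) (ht : DF t) (hr : DF r) (hq : DF q) (hp : DF p) :
    DF fun v => F (s v) (t v) (r v) (q v) (p v) :=
  df_subst (w := sb [s, t, r, q, p]) h (sb_df (by simp [hs, ht, hr, hq, hp]))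

/-! ### Tests -/

example (a : N) : Dfn fun v : ℕ → N => ∃ x, x ∈ v 1 ∧ ∀ y, y ∈ x → y = a ∨ ¬ y ∈ v 3 := by
  simp (maxDischargeDepth := 99)

example (a : N) : Dfn fun v : ℕ → N => ∀ x, x ∈ v 1 → ∃ y z, y ∈ x ∧ (z = y ↔ x ∈ v 0) ∧ z ⊆ a := by
  simp (maxDischargeDepth := 99)

end ZU
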