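import Pool.Agent.ZU.Rec

/-! # ZU: the natural numbers, finite sets

(problem MP_ba5606_gt, project ZU; no sorry in this file)

`nt n` is the numeral of `n : ℕ`, `om` the set of all numerals; `itr F a` is the function with
`itr F a (nt 0) = a`, `itr F a (nt (n + 1)) = F (nt n) (itr F a (nt n))`. `Fi x`: the set `x` is finite;
this is definable and the same as native finiteness. -/

universe v

namespace ZU

open STP STP.Fml

variable {N : Type v} [ZM N]

/-- `x ∪ {x}` -/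
noncomputable def sc (x : N) : N := cup x (sg x)

@[simp] theorem mem_sc {x z : N} : z ∈ sc x ↔ z ∈ x ∨ z = x := by simp [sc]

@[simp] theorem df_sc {s : (ℕ → N) → N} (hs : DF s) : DF fun v => sc (s v) := df_cup hs (df_sg hs)

/-- inductive sets -/
def Ind (x : N) : Prop := ∅ ∈ x ∧ ∀ y, y ∈ x → sc y ∈ x

@[simp] theorem dfn_ind {s : (ℕ → N) → N} (hs : DF s) : Dfn fun v => Ind (s v) :=
  dfn1 (P := Ind) (by unfold Ind; simp (maxDischargeDepth := 99)) hs

/-- the set of natural numbers -/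
noncomputable def om : N := the fun w : N => ∀ z : N, z ∈ w ↔ ∀ x : N, Ind x → z ∈ x

theorem ex_ind : ∃ x : N, Ind x := by
  obtain ⟨x, ⟨y, hy, hy'⟩, h⟩ := (ZM.ax (N := N)).infinity
  have h0 : y = ∅ := eq_em hy'
  subst h0
  refine ⟨x, hy, fun y hy => ?_⟩
  obtain ⟨z, hz, hz'⟩ := h y hy
  have : sc y = z := ext fun w => mem_sc.trans (hz' w).symm
  rw [this]
  exact hz

theorem mem_om' {z : N} : z ∈ (om : N) ↔ ∀ x : N, Ind x → z ∈ x := by
  obtain ⟨x0, hx0⟩ := ex_ind (N := N)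
  have hD : Dfn fun v : ℕ → N => ∀ x : N, Ind x → v 0 ∈ x := by simp (maxDischargeDepth := 99)
  have h1 : ∀ z : N, z ∈ sep x0 (fun z => ∀ x : N, Ind x → z ∈ x) ↔ ∀ x : N, Ind x → z ∈ x := by
    intro z
    rw [mem_sep hD]
    exact ⟨fun h => h.2, fun h => ⟨h x0 hx0, h⟩⟩
  have h2 : (om : N) = sep x0 (fun z => ∀ x : N, Ind x → z ∈ x) :=
    the_eq h1 fun w hw => ext fun u => (hw u).trans (h1 u).symm
  rw [h2]
  exact h1 z

theorem ind_om : Ind (om : N) := by
  refine ⟨mem_om'.2 fun x hx => hx.1, fun y hy => mem_om'.2 fun x hx => ?_⟩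
  exact hx.2 y (mem_om'.1 hy x hx)

/-- the numeral of `n` -/
noncomputable def nt : ℕ → N
  | 0 => ∅
  | n + 1 => sc (nt n)

@[simp] theorem nt_zero : (nt 0 : N) = ∅ := rfl
theorem nt_succ (n : ℕ) : (nt (n + 1) : N) = sc (nt n) := rfl

theorem nt_mem_om (n : ℕ) : (nt n : N) ∈ (om : N) := by
  induction n with
  | zero => exact ind_om.1
  | succ n ih => exact ind_om.2 _ ih

theorem mem_om {x : N} : x ∈ (om : N) ↔ ∃ n, x = nt n := by
  constructor
  · refine ind (P := fun x : N => x ∈ (om : N) → ∃ n, x = nt n) ?_ x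
    intro x ih hx
    have h1 : x = ∅ ∨ ∃ y, y ∈ (om : N) ∧ x = sc y := by
      have hD : Dfn fun v : ℕ → N => v 0 = ∅ ∨ ∃ y, y ∈ (om : N) ∧ v 0 = sc y := by
        simp (maxDischargeDepth := 99)
      have := mem_om'.1 hx (sep om fun x => x = ∅ ∨ ∃ y, y ∈ (om : N) ∧ x = sc y) (by
        refine ⟨(mem_sep hD).2 ⟨ind_om.1, Or.inl rfl⟩, fun y hy => ?_⟩
        have := ((mem_sep hD).1 hy).1
        exact (mem_sep hD).2 ⟨ind_om.2 _ this, Or.inr ⟨y, this, rfl⟩⟩)
      exact ((mem_sep hD).1 this).2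
    rcases h1 with rfl | ⟨y, hy, rfl⟩
    · exact ⟨0, rfl⟩
    · obtain ⟨n, rfl⟩ := ih y (mem_sc.2 (Or.inr rfl)) hy
      exact ⟨n + 1, rfl⟩
  · rintro ⟨n, rfl⟩
    exact nt_mem_om n

theorem mem_nt {n : ℕ} {x : N} : x ∈ (nt n : N) ↔ ∃ m, m < n ∧ x = nt m := by
  induction n with
  | zero => simp
  | succ n ih =>
    rw [nt_succ, mem_sc, ih]
    constructor
    · rintro (⟨m, h, rfl⟩ | rfl)
      · exact ⟨m, by omega, rfl⟩
      · exact ⟨n, by omega, rfl⟩
    · rintro ⟨m, h, rfl⟩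
      rcases Nat.lt_succ_iff_lt_or_eq.1 h with h | h
      · exact Or.inl ⟨m, h, rfl⟩
      · exact Or.inr (by rw [h])

theorem nt_ne {m n : ℕ} (h : m < n) : (nt m : N) ≠ nt n := fun he => by
  have h1 : (nt m : N) ∈ (nt n : N) := mem_nt.2 ⟨m, h, rfl⟩
  rw [he] at h1
  exact not_mem_self _ h1

@[simp] theorem nt_inj {m n : ℕ} : (nt m : N) = nt n ↔ m = n := by
  constructor
  · intro h
    rcases lt_trichotomy m n with h1 | h1 | h1
    · exact absurd h (nt_ne h1)
    · exact h1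
    · exact absurd h.symm (nt_ne h1)
  · rintro rfl
    rfl

@[simp] theorem nt_mem {m n : ℕ} : (nt m : N) ∈ (nt n : N) ↔ m < n := by
  rw [mem_nt]
  constructor
  · rintro ⟨k, hk, h⟩
    rw [nt_inj] at h
    omega
  · intro h
    exact ⟨m, h, rfl⟩

theorem nt_ne_em (n : ℕ) : (nt (n + 1) : N) ≠ ∅ := fun h => by
  have := nt_inj.1 (h.trans (nt_zero (N := N)).symm)
  omega

/-- induction on the natural numbers of `N` for arbitrary predicates -/
theorem om_ind {P : N → Prop} (h0 : P ∅) (h1 : ∀ x : N, x ∈ (om : N) → P x → P (sc x)) (x : N)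
    (hx : x ∈ (om : N)) : P x := by
  obtain ⟨n, rfl⟩ := mem_om.1 hx
  induction n with
  | zero => exact h0
  | succ n ih => exact h1 _ (nt_mem_om n) (ih (nt_mem_om n))

/-- the predecessor of a numeral -/
theorem uni_nt (n : ℕ) : uni (nt (n + 1) : N) = nt n := by
  refine ext fun z => ?_
  rw [mem_uni, mem_nt]
  constructor
  · rintro ⟨w, hw, hz⟩
    obtain ⟨m, hm, rfl⟩ := mem_nt.1 hw
    obtain ⟨k, hk, rfl⟩ := mem_nt.1 hz
    exact ⟨k, by omega, rfl⟩
  · rintro ⟨m, hm, rfl⟩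
    exact ⟨nt n, nt_mem.2 (by omega), nt_mem.2 hm⟩

/-- iteration -/
noncomputable def itr (F : N → N → N) (a : N) (x : N) : N :=
  Rec (fun x f => ife (x = ∅) a (F (uni x) (ap f (uni x)))) x

@[simp] theorem df_itr {F : N → N → (ℕ → N) → N} {a x : (ℕ → N) → N}
    (hF : DF fun v => F (v 0) (v 1) fun i => v (i + 2)) (ha : DF a) (hx : DF x) :
    DF fun v => itr (fun x y => F x y v) (a v) (x v) := by
  unfold itr
  refine df_rec (G := fun x f v => ife (x = ∅) (a v) (F (uni x) (ap f (uni x)) v)) ?_ hx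
  refine df_ife (dfn_eq (df_var 0) (df_const _)) ha.wk.wk ?_
  refine (df_subst (w := fun i v => match i with
    | 0 => uni (v 0)
    | 1 => ap (v 1) (uni (v 0))
    | n + 2 => v (n + 2)) hF ?_).congr fun v => rfl
  intro i
  rcases i with _ | _ | n
  · exact df_uni (df_var 0)
  · exact df_ap (df_var 1) (df_uni (df_var 0))
  · exact df_var (n + 2)

section
variable {F : N → N → N} (hF : DF fun v => F (v 0) (v 1)) (a : N)
include hF

theorem df_itr_aux : DF fun v : ℕ → N => ife (v 0 = ∅) a (F (uni (v 0)) (ap (v 1) (uni (v 0)))) := by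
  refine df_ife (dfn_eq (df_var 0) (df_const _)) (df_const a) ?_
  exact df2 hF (df_uni (df_var 0)) (df_ap (df_var 1) (df_uni (df_var 0)))

theorem itr_zero : itr F a ∅ = a := by
  unfold itr
  rw [rec_eq (df_itr_aux hF a)]
  exact ife_pos rfl _ _

theorem itr_succ (n : ℕ) : itr F a (nt (n + 1)) = F (nt n) (itr F a (nt n)) := by
  have h1 : itr F a (nt (n + 1)) = ife ((nt (n + 1) : N) = ∅) a (F (uni (nt (n + 1)))
      (ap (lam (nt (n + 1)) (itr F a)) (uni (nt (n + 1))))) := by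
    unfold itr
    rw [rec_eq (df_itr_aux hF a)]
  have hd : DF fun v : ℕ → N => itr F a (v 0) :=
    df_itr (F := fun x y _ => F x y) (a := fun _ => a) hF (df_const a) (df_var 0)
  rw [h1, ife_neg (nt_ne_em n), uni_nt, ap_lam hd (nt_mem.2 (by omega))]

theorem itr_sc {x : N} (hx : x ∈ (om : N)) : itr F a (sc x) = F x (itr F a x) := by
  obtain ⟨n, rfl⟩ := mem_om.1 hx
  exact itr_succ hF a n

end

/-! ### Finite sets -/

/-- `x` is finite (Kuratowski) -/
def Fi (x : N) : Prop :=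
  ∀ F : N, ∅ ∈ F → (∀ s, s ∈ F → ∀ z, z ∈ x → cup s (sg z) ∈ F) → x ∈ F

@[simp] theorem dfn_fi {s : (ℕ → N) → N} (hs : DF s) : Dfn fun v => Fi (s v) :=
  dfn1 (P := Fi) (by unfold Fi; simp (maxDischargeDepth := 99)) hs

theorem fi_of_finite {x : N} (h : {z | z ∈ x}.Finite) : Fi x := by
  intro F h0 h1
  have key : ∀ s : Finset N, (∀ z ∈ s, z ∈ x) → ∃ y, y ∈ F ∧ ∀ z, z ∈ y ↔ z ∈ s := by
    classical
    intro s
    induction s using Finset.induction_on with
    | empty => exact fun _ => ⟨∅, h0, fun z => by simp⟩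
    | insert a s ha ih =>
      intro h2
      obtain ⟨y, hy, hy'⟩ := ih fun z hz => h2 z (Finset.mem_insert_of_mem hz)
      refine ⟨cup y (sg a), h1 y hy a (h2 a (Finset.mem_insert_self a s)), fun z => ?_⟩
      rw [mem_cup, mem_sg, hy', Finset.mem_insert]
      tauto
  obtain ⟨y, hy, hy'⟩ := key h.toFinset fun z hz => by simpa using hz
  have : x = y := ext fun z => by
    rw [hy', Set.Finite.mem_toFinset]
    rfl
  rw [this]
  exact hy

theorem finite_nt (n : ℕ) : {z | z ∈ (nt n : N)}.Finite := by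
  have : {z | z ∈ (nt n : N)} ⊆ nt '' {m | m < n} := by
    intro z hz
    obtain ⟨m, hm, rfl⟩ := mem_nt.1 hz
    exact ⟨m, hm, rfl⟩
  exact ((Set.finite_lt_nat n).image _).subset this

theorem finite_of_fi {x : N} (h : Fi x) : {z | z ∈ x}.Finite := by
  have hD : Dfn fun v : ℕ → N => ∃ n f, n ∈ (om : N) ∧ IsF f n ∧ ∀ z, z ∈ v 0 → ∃ m, m ∈ n ∧ z = ap f m := by
    simp (maxDischargeDepth := 99)
  have h1 := h (sep (pw x) fun s => ∃ n f, n ∈ (om : N) ∧ IsF f n ∧
    ∀ z, z ∈ s → ∃ m, m ∈ n ∧ z = ap f m) ?_ ?_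
  · rw [mem_sep hD] at h1
    obtain ⟨-, n, f, hn, -, h2⟩ := h1
    obtain ⟨k, rfl⟩ := mem_om.1 hn
    have : {z | z ∈ x} ⊆ ap f '' {m | m ∈ (nt k : N)} := by
      intro z hz
      obtain ⟨m, hm, rfl⟩ := h2 z hz
      exact ⟨m, hm, rfl⟩
    exact ((finite_nt k).image _).subset this
  · rw [mem_sep hD]
    refine ⟨by simp, ∅, lam ∅ fun z => z, ind_om.1, isF_lam (df_var 0) _, by simp⟩
  · intro s hs z hz
    rw [mem_sep hD] at hs ⊢
    obtain ⟨hsx, n, f, hn, hf, h2⟩ := hs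
    refine ⟨?_, sc n, lam (sc n) (fun m => ife (m = n) z (ap f m)), ind_om.2 _ hn,
      isF_lam (by simp (maxDischargeDepth := 99)) _, ?_⟩
    · rw [mem_pw] at hsx ⊢
      intro w hw
      rcases mem_cup.1 hw with hw | hw
      · exact hsx w hw
      · rw [mem_sg] at hw
        rw [hw]
        exact hz
    · intro w hw
      have hdf : DF fun v : ℕ → N => ife (v 0 = n) z (ap f (v 0)) := by
        simp (maxDischargeDepth := 99)
      rcases mem_cup.1 hw with hw | hw
      · obtain ⟨m, hm, rfl⟩ := h2 w hw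
        refine ⟨m, mem_sc.2 (Or.inl hm), ?_⟩
        rw [ap_lam hdf (mem_sc.2 (Or.inl hm)), ife_neg]
        rintro rfl
        exact not_mem_self _ hm
      · rw [mem_sg] at hw
        refine ⟨n, mem_sc.2 (Or.inr rfl), ?_⟩
        rw [ap_lam hdf (mem_sc.2 (Or.inr rfl)), ife_pos rfl, hw]

/-- finite in `N` is the same as natively finite -/
theorem fi_iff {x : N} : Fi x ↔ {z | z ∈ x}.Finite := ⟨finite_of_fi, fi_of_finite⟩

theorem exists_of_finset (s : Finset N) : ∃ x : N, ∀ z, z ∈ x ↔ z ∈ s := by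
  classical
  induction s using Finset.induction_on with
  | empty => exact ⟨∅, fun z => by simp⟩
  | insert a s ha ih =>
    obtain ⟨y, hy⟩ := ih
    exact ⟨cup y (sg a), fun z => by rw [mem_cup, mem_sg, hy, Finset.mem_insert]; tauto⟩

/-- every natively finite set of elements of `N` is an element of `N` -/
theorem exists_of_finite {A : Set N} (h : A.Finite) : ∃ x : N, ∀ z, z ∈ x ↔ z ∈ A := by
  obtain ⟨x, hx⟩ := exists_of_finset h.toFinset
  exact ⟨x, fun z => by rw [hx, Set.Finite.mem_toFinset]⟩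

@[simp] theorem fi_em : Fi (∅ : N) := fi_iff.2 (by simp)

@[simp] theorem fi_sg (a : N) : Fi (sg a) := fi_iff.2 (by simp)

theorem Fi.sub {x y : N} (h : Fi x) (hy : y ⊆ x) : Fi y :=
  fi_iff.2 ((fi_iff.1 h).subset hy)

theorem Fi.cup {x y : N} (h : Fi x) (h' : Fi y) : Fi (cup x y) := by
  rw [fi_iff] at *
  refine (h.union h').subset ?_
  intro z hz
  exact mem_cup.1 hz

theorem Fi.img {x : N} {F : N → N} (hF : DF fun v => F (v 0)) (h : Fi x) : Fi (img x F) := by
  rw [fi_iff] at *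
  refine (h.image F).subset ?_
  intro z hz
  obtain ⟨w, hw, rfl⟩ := (mem_img hF).1 hz
  exact ⟨w, hw, rfl⟩

end ZU
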