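import Pool.Agent.ZU.Dfn

/-! # ZU: the operations of set theory as total functions on `N`

(problem MP_ba5606_gt, project ZU; no sorry in this file)

`the P` is the unique element with `P` (or `∅`), `sep x P` is `{z ∈ x | P z}`, `img x F` is `{F z | z ∈ x}`,
`bU x F` is the union of the `F z`, `z ∈ x`, `lam x F` is the function `z ↦ F z` with domain `x`. Every
operation has a rule `df_..` for `simp`. -/

universe v

namespace ZU

open STP STP.Fml

variable {N : Type v} [ZM N]

/-- a definable predicate in which all variables but one are fixed -/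
theorem Dfn.fix {R : N → (ℕ → N) → Prop} (h : Dfn fun v => R (v 0) fun i => v (i + 1))
    (v : ℕ → N) : Dfn fun w => R (w 0) v :=
  (dfn_subst (w := fun i w => match i with | 0 => w 0 | n + 1 => v n) h (by
    intro i
    cases i with
    | zero => exact df_var 0
    | succ n => exact df_const (v n))).congr fun w => Iff.rfl

theorem DF.fix {R : N → (ℕ → N) → N} (h : DF fun v => R (v 0) fun i => v (i + 1))
    (v : ℕ → N) : DF fun w => R (w 0) v :=
  (df_subst (w := fun i w => match i with | 0 => w 0 | n + 1 => v n) h (by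
    intro i
    cases i with
    | zero => exact df_var 0
    | succ n => exact df_const (v n))).congr fun w => rfl

theorem exists_sep {P : N → Prop} (hP : Dfn fun v => P (v 0)) (x : N) :
    ∃ y : N, ∀ z : N, z ∈ y ↔ z ∈ x ∧ P z := by
  obtain ⟨φ, c, h⟩ := hP
  obtain ⟨y, hy⟩ := ZM.ax.separation (CPI.ren rnq φ) (mix (fun _ => x) c) x
  refine ⟨y, fun z => ?_⟩
  have h1 := hy z
  rw [CPI.sat_ren, cns_mix_rnq, ← h] at h1
  exact h1

/-! ### The empty set, unique choice -/

theorem exists_em : ∃ y : N, ∀ z, ¬ z ∈ y := by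
  obtain ⟨y, hy⟩ := exists_sep (P := fun _ : N => False) (dfn_const False) (Classical.arbitrary N)
  exact ⟨y, fun z hz => ((hy z).1 hz).2⟩

noncomputable instance : EmptyCollection N := ⟨exists_em.choose⟩

@[simp] theorem not_mem_em (z : N) : ¬ z ∈ (∅ : N) := (exists_em (N := N)).choose_spec z

theorem eq_em {x : N} (h : ∀ z, ¬ z ∈ x) : x = ∅ :=
  ext fun z => ⟨fun hz => absurd hz (h z), fun hz => absurd hz (not_mem_em z)⟩

theorem ne_em {x : N} : x ≠ ∅ ↔ ∃ z, z ∈ x := by
  constructor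
  · intro h
    by_contra hc
    push Not at hc
    exact h (eq_em hc)
  · rintro ⟨z, hz⟩ rfl
    exact not_mem_em z hz

@[simp] theorem em_sub (x : N) : (∅ : N) ⊆ x := fun z hz => absurd hz (not_mem_em z)

@[simp] theorem sub_rfl (x : N) : x ⊆ x := fun _ hz => hz

theorem sub_trans {x y z : N} (h : x ⊆ y) (h' : y ⊆ z) : x ⊆ z := fun w hw => h' w (h w hw)

open Classical in
/-- the unique element with `P`, and `∅` if there is none -/
noncomputable def the (P : N → Prop) : N := if h : ∃! z, P z then h.choose else ∅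

theorem the_spec {P : N → Prop} (h : ∃! z, P z) : P (the P) := by
  unfold the
  rw [dif_pos h]
  exact h.choose_spec.1

theorem the_eq {P : N → Prop} {a : N} (h : P a) (h' : ∀ z, P z → z = a) : the P = a :=
  h' _ (the_spec ⟨a, h, h'⟩)

theorem the_none {P : N → Prop} (h : ¬ ∃! z, P z) : the P = ∅ := by
  unfold the
  rw [dif_neg h]

@[simp] theorem df_the {R : N → (ℕ → N) → Prop} (h : Dfn fun v => R (v 0) fun i => v (i + 1)) :
    DF fun v => the fun z => R z v := by
  have h1 : Dfn fun v : ℕ → N => ∃ z, R z (fun i => v (i + 1)) ∧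
      ∀ y, R y (fun i => v (i + 1)) → y = z := by
    refine dfn_ex (dfn_and ?_ (dfn_all (dfn_imp ?_ (dfn_eq (df_var 0) (df_var 1)))))
    · exact (dfn_ren (fun i => match i with | 0 => 0 | n + 1 => n + 2) h).congr fun v => Iff.rfl
    · exact (dfn_ren (fun i => match i with | 0 => 0 | n + 1 => n + 3) h).congr fun v => Iff.rfl
  refine (dfn_or (dfn_and h1 h) (dfn_and (dfn_not h1) (dfn_eq (df_var 0) (df_const ∅)))).congr
    fun v => ?_
  constructor
  · intro hv
    by_cases hc : ∃! z, R z fun i => v (i + 1)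
    · exact Or.inl ⟨hc, hv ▸ the_spec hc⟩
    · exact Or.inr ⟨hc, hv.trans (the_none hc)⟩
  · rintro (⟨⟨z, h2, h3⟩, h4⟩ | ⟨h2, h3⟩)
    · exact (the_eq (P := fun z => R z fun i => v (i + 1)) h4
        fun y hy => (h3 y hy).trans (h3 _ h4).symm).symm
    · exact h3.trans (the_none h2).symm

/-! ### Definition by cases -/

open Classical in
/-- `a` if `p`, otherwise `b` -/
noncomputable def ife (p : Prop) (a b : N) : N := if p then a else b

theorem ife_pos {p : Prop} (h : p) (a b : N) : ife p a b = a := if_pos h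
theorem ife_neg {p : Prop} (h : ¬ p) (a b : N) : ife p a b = b := if_neg h

@[simp] theorem df_ife {P : (ℕ → N) → Prop} {a b : (ℕ → N) → N} (hP : Dfn P) (ha : DF a)
    (hb : DF b) : DF fun v => ife (P v) (a v) (b v) := by
  refine (dfn_or (dfn_and hP.wk ha) (dfn_and (dfn_not hP.wk) hb)).congr fun v => ?_
  by_cases h : P fun i => v (i + 1)
  · simp only [ife_pos h]
    tauto
  · simp only [ife_neg h]
    tauto

/-! ### Separation and replacement -/

/-- `{z ∈ x | P z}` (for definable `P`) -/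
noncomputable def sep (x : N) (P : N → Prop) : N := the fun y => ∀ z, z ∈ y ↔ z ∈ x ∧ P z

theorem mem_sep {P : N → Prop} (hP : Dfn fun v => P (v 0)) {x z : N} :
    z ∈ sep x P ↔ z ∈ x ∧ P z := by
  obtain ⟨y, hy⟩ := exists_sep hP x
  have : sep x P = y := the_eq hy fun w hw => ext fun u => (hw u).trans (hy u).symm
  rw [this]
  exact hy z

@[simp] theorem df_sep {x : (ℕ → N) → N} {R : N → (ℕ → N) → Prop} (hx : DF x)
    (h : Dfn fun v => R (v 0) fun i => v (i + 1)) : DF fun v => sep (x v) fun z => R z v := by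
  refine df_the (R := fun y v => ∀ z, z ∈ y ↔ z ∈ x v ∧ R z v) (dfn_all (dfn_iff
    (dfn_mem (df_var 0) (df_var 1)) (dfn_and (dfn_mem (df_var 0) hx.wk.wk) ?_)))
  exact (dfn_ren (fun i => match i with | 0 => 0 | n + 1 => n + 2) h).congr fun v => Iff.rfl

theorem exists_img {F : N → N} (hF : DF fun v => F (v 0)) (x : N) :
    ∃ y : N, ∀ w : N, w ∈ y ↔ ∃ z, z ∈ x ∧ w = F z := by
  obtain ⟨φ, c, h⟩ := hF
  have key : ∀ w z : N, sat ZM.E (CPI.ren (fun n => if n = 0 then 0 else if n = 2 then 1 else n + 2) φ)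
      (cns w (cns z (mix (fun _ => x) c))) ↔ w = F z := by
    intro w z
    rw [CPI.sat_ren]
    have h1 : cns w (cns z (mix (fun _ => x) c)) ∘
        (fun n => if n = 0 then 0 else if n = 2 then 1 else n + 2) =
        mix (cns w (cns z fun _ => x)) c := by
      funext n
      rw [Function.comp_apply]
      rcases Nat.mod_two_eq_zero_or_one n with h | h
      · have h2 : n = 2 * (n / 2) := by omega
        rcases h3 : n / 2 with _ | _ | m
        · rw [h3] at h2
          subst h2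
          rfl
        · rw [h3] at h2
          subst h2
          rfl
        · rw [h3] at h2
          have h4 : n ≠ 0 := by omega
          have h5 : n ≠ 2 := by omega
          simp only [h4, h5, if_false]
          rw [cns_succ, cns_succ, h2, mix_even, mix_even]
          rfl
      · have h2 : n = 2 * (n / 2) + 1 := by omega
        have h4 : n ≠ 0 := by omega
        have h5 : n ≠ 2 := by omega
        simp only [h4, h5, if_false]
        rw [cns_succ, cns_succ, h2, mix_odd, mix_odd]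
    rw [h1, ← h]
    exact Iff.rfl
  obtain ⟨y, hy⟩ := ZM.ax.replacement
    (CPI.ren (fun n => if n = 0 then 0 else if n = 2 then 1 else n + 2) φ) (mix (fun _ => x) c) x (by
    intro z hz
    simp only [key]
    exact ⟨F z, rfl, fun _ h => h⟩)
  exact ⟨y, fun w => by
    have h1 := hy w
    simp only [key] at h1
    exact h1⟩

/-- `{F z | z ∈ x}` (for definable `F`) -/
noncomputable def img (x : N) (F : N → N) : N := the fun y => ∀ w, w ∈ y ↔ ∃ z, z ∈ x ∧ w = F z

theorem mem_img {F : N → N} (hF : DF fun v => F (v 0)) {x w : N} :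
    w ∈ img x F ↔ ∃ z, z ∈ x ∧ w = F z := by
  obtain ⟨y, hy⟩ := exists_img hF x
  have : img x F = y := the_eq hy fun w hw => ext fun u => (hw u).trans (hy u).symm
  rw [this]
  exact hy w

@[simp] theorem df_img {x : (ℕ → N) → N} {F : N → (ℕ → N) → N} (hx : DF x)
    (h : DF fun v => F (v 0) fun i => v (i + 1)) : DF fun v => img (x v) fun z => F z v := by
  refine df_the (R := fun y v => ∀ w, w ∈ y ↔ ∃ z, z ∈ x v ∧ w = F z v) (dfn_all (dfn_iff
    (dfn_mem (df_var 0) (df_var 1)) (dfn_ex (dfn_and (dfn_mem (df_var 0) hx.wk.wk.wk)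
      (dfn_eq (df_var 1) ?_)))))
  exact (df_ren (fun i => match i with | 0 => 0 | n + 1 => n + 3) h).congr fun v => rfl

/-! ### Pairs, unions, power sets -/

/-- `{x, y}` -/
noncomputable def up (x y : N) : N := the fun p => ∀ w, w ∈ p ↔ w = x ∨ w = y

@[simp] theorem mem_up {x y w : N} : w ∈ up x y ↔ w = x ∨ w = y := by
  obtain ⟨p, hp⟩ := ZM.ax.pair x y
  have : up x y = p := the_eq hp fun w hw => ext fun u => (hw u).trans (hp u).symm
  rw [this]
  exact hp w

@[simp] theorem df_up {s t : (ℕ → N) → N} (hs : DF s) (ht : DF t) : DF fun v => up (s v) (t v) :=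
  df2 (F := up) (by unfold up; simp (maxDischargeDepth := 99)) hs ht

/-- `{x}` -/
noncomputable def sg (x : N) : N := up x x

@[simp] theorem mem_sg {x w : N} : w ∈ sg x ↔ w = x := by simp [sg]

@[simp] theorem df_sg {s : (ℕ → N) → N} (hs : DF s) : DF fun v => sg (s v) := df_up hs hs

/-- the union of the elements of `x` -/
noncomputable def uni (x : N) : N := the fun y => ∀ z, z ∈ y ↔ ∃ w, w ∈ x ∧ z ∈ w

@[simp] theorem mem_uni {x z : N} : z ∈ uni x ↔ ∃ w, w ∈ x ∧ z ∈ w := by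
  obtain ⟨p, hp⟩ := ZM.ax.union x
  have : uni x = p := the_eq hp fun w hw => ext fun u => (hw u).trans (hp u).symm
  rw [this]
  exact hp z

@[simp] theorem df_uni {s : (ℕ → N) → N} (hs : DF s) : DF fun v => uni (s v) :=
  df1 (F := uni) (by unfold uni; simp (maxDischargeDepth := 99)) hs

/-- the power set -/
noncomputable def pw (x : N) : N := the fun y => ∀ z, z ∈ y ↔ z ⊆ x

@[simp] theorem mem_pw {x z : N} : z ∈ pw x ↔ z ⊆ x := by
  obtain ⟨p, hp⟩ := ZM.ax.power x
  have hp' : ∀ z : N, z ∈ p ↔ z ⊆ x := hp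
  have : pw x = p := the_eq hp' fun w hw => ext fun u => (hw u).trans (hp' u).symm
  rw [this]
  exact hp' z

@[simp] theorem df_pw {s : (ℕ → N) → N} (hs : DF s) : DF fun v => pw (s v) :=
  df1 (F := pw) (by unfold pw; simp (maxDischargeDepth := 99)) hs

/-- `x ∪ y` -/
noncomputable def cup (x y : N) : N := uni (up x y)

@[simp] theorem mem_cup {x y z : N} : z ∈ cup x y ↔ z ∈ x ∨ z ∈ y := by
  simp only [cup, mem_uni, mem_up]
  constructor
  · rintro ⟨w, rfl | rfl, h⟩
    · exact Or.inl h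
    · exact Or.inr h
  · rintro (h | h)
    · exact ⟨x, Or.inl rfl, h⟩
    · exact ⟨y, Or.inr rfl, h⟩

@[simp] theorem df_cup {s t : (ℕ → N) → N} (hs : DF s) (ht : DF t) :
    DF fun v => cup (s v) (t v) := df_uni (df_up hs ht)

/-- `x ∩ y` -/
noncomputable def cap (x y : N) : N := sep x fun z => z ∈ y

@[simp] theorem mem_cap {x y z : N} : z ∈ cap x y ↔ z ∈ x ∧ z ∈ y :=
  mem_sep (by simp (maxDischargeDepth := 99))

@[simp] theorem df_cap {s t : (ℕ → N) → N} (hs : DF s) (ht : DF t) :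
    DF fun v => cap (s v) (t v) :=
  df2 (F := cap) (by unfold cap; simp (maxDischargeDepth := 99)) hs ht

/-- `x ∖ y` -/
noncomputable def dif (x y : N) : N := sep x fun z => ¬ z ∈ y

@[simp] theorem mem_dif {x y z : N} : z ∈ dif x y ↔ z ∈ x ∧ ¬ z ∈ y :=
  mem_sep (by simp (maxDischargeDepth := 99))

@[simp] theorem df_dif {s t : (ℕ → N) → N} (hs : DF s) (ht : DF t) :
    DF fun v => dif (s v) (t v) :=
  df2 (F := dif) (by unfold dif; simp (maxDischargeDepth := 99)) hs ht

/-- `⋃ {F z | z ∈ x}` -/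
noncomputable def bU (x : N) (F : N → N) : N := uni (img x F)

theorem mem_bU {F : N → N} (hF : DF fun v => F (v 0)) {x w : N} :
    w ∈ bU x F ↔ ∃ z, z ∈ x ∧ w ∈ F z := by
  simp only [bU, mem_uni, mem_img hF]
  constructor
  · rintro ⟨_, ⟨z, hz, rfl⟩, h⟩
    exact ⟨z, hz, h⟩
  · rintro ⟨z, hz, h⟩
    exact ⟨_, ⟨z, hz, rfl⟩, h⟩

@[simp] theorem df_bU {x : (ℕ → N) → N} {F : N → (ℕ → N) → N} (hx : DF x)
    (h : DF fun v => F (v 0) fun i => v (i + 1)) : DF fun v => bU (x v) fun z => F z v :=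
  df_uni (df_img hx h)

/-! ### Ordered pairs -/

/-- `(x, y) = {{x}, {x, y}}` -/
noncomputable def op (x y : N) : N := up (up x x) (up x y)

@[simp] theorem df_op {s t : (ℕ → N) → N} (hs : DF s) (ht : DF t) : DF fun v => op (s v) (t v) :=
  df_up (df_up hs hs) (df_up hs ht)

theorem up_eq_up {x y z w : N} (h : up x y = up z w) : (x = z ∧ y = w) ∨ (x = w ∧ y = z) := by
  have h1 : ∀ u : N, (u = x ∨ u = y) ↔ (u = z ∨ u = w) := fun u => by
    rw [← mem_up, ← mem_up, h]
  have hx := (h1 x).1 (Or.inl rfl)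
  have hy := (h1 y).1 (Or.inr rfl)
  have hz := (h1 z).2 (Or.inl rfl)
  have hw := (h1 w).2 (Or.inr rfl)
  rcases hx with rfl | rfl
  · rcases hy with rfl | rfl
    · rcases hw with rfl | rfl <;> simp
    · simp
  · rcases hy with rfl | rfl
    · simp
    · rcases hz with rfl | rfl <;> simp

@[simp] theorem op_inj {x y z w : N} : op x y = op z w ↔ x = z ∧ y = w := by
  constructor
  · intro h
    rcases up_eq_up h with ⟨h1, h2⟩ | ⟨h1, h2⟩
    · rcases up_eq_up h1 with ⟨rfl, -⟩ | ⟨rfl, -⟩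
      · rcases up_eq_up h2 with ⟨-, rfl⟩ | ⟨rfl, rfl⟩ <;> simp
      · rcases up_eq_up h2 with ⟨-, rfl⟩ | ⟨rfl, rfl⟩ <;> simp
    · rcases up_eq_up h1 with ⟨rfl, rfl⟩ | ⟨rfl, rfl⟩
      · rcases up_eq_up h2 with ⟨-, rfl⟩ | ⟨-, rfl⟩ <;> simp
      · rcases up_eq_up h2 with ⟨-, rfl⟩ | ⟨-, rfl⟩ <;> simp
  · rintro ⟨rfl, rfl⟩
    rfl

theorem isOP_iff {p x y : N} : IsOP ZM.E p x y ↔ p = op x y := by
  have hup : ∀ z a b : N, IsUP ZM.E z a b ↔ z = up a b := by
    intro z a b
    constructor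
    · intro h
      exact ext fun w => (h w).trans mem_up.symm
    · rintro rfl w
      exact mem_up
  constructor
  · intro h
    refine ext fun z => ?_
    have h1 := h z
    rw [hup, hup] at h1
    rw [op, mem_up]
    exact h1
  · rintro rfl z
    rw [hup, hup]
    exact mem_up

theorem val_iff {f x y : N} : Val ZM.E f x y ↔ op x y ∈ f := by
  constructor
  · rintro ⟨p, hp, h⟩
    rw [isOP_iff] at h
    rwa [h] at hp
  · intro h
    exact ⟨_, h, isOP_iff.2 rfl⟩

/-- first component -/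
noncomputable def fst (p : N) : N := the fun x => ∃ y, p = op x y

/-- second component -/
noncomputable def snd (p : N) : N := the fun y => ∃ x, p = op x y

@[simp] theorem fst_op (x y : N) : fst (op x y) = x :=
  the_eq ⟨y, rfl⟩ fun _ ⟨_, h⟩ => (op_inj.1 h).1.symm

@[simp] theorem snd_op (x y : N) : snd (op x y) = y :=
  the_eq ⟨x, rfl⟩ fun _ ⟨_, h⟩ => (op_inj.1 h).2.symm

@[simp] theorem df_fst {s : (ℕ → N) → N} (hs : DF s) : DF fun v => fst (s v) :=
  df1 (F := fst) (by unfold fst; simp (maxDischargeDepth := 99)) hs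

@[simp] theorem df_snd {s : (ℕ → N) → N} (hs : DF s) : DF fun v => snd (s v) :=
  df1 (F := snd) (by unfold snd; simp (maxDischargeDepth := 99)) hs

/-- `x × y` -/
noncomputable def prd (x y : N) : N := bU x fun a => img y fun b => op a b

theorem mem_prd {x y p : N} : p ∈ prd x y ↔ ∃ a b, a ∈ x ∧ b ∈ y ∧ p = op a b := by
  unfold prd
  rw [mem_bU (by simp (maxDischargeDepth := 99))]
  constructor
  · rintro ⟨a, ha, h⟩
    rw [mem_img (by simp (maxDischargeDepth := 99))] at h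
    obtain ⟨b, hb, rfl⟩ := h
    exact ⟨a, b, ha, hb, rfl⟩
  · rintro ⟨a, b, ha, hb, rfl⟩
    refine ⟨a, ha, ?_⟩
    rw [mem_img (by simp (maxDischargeDepth := 99))]
    exact ⟨b, hb, rfl⟩

@[simp] theorem op_mem_prd {x y a b : N} : op a b ∈ prd x y ↔ a ∈ x ∧ b ∈ y := by
  rw [mem_prd]
  constructor
  · rintro ⟨a', b', ha, hb, h⟩
    obtain ⟨rfl, rfl⟩ := op_inj.1 h
    exact ⟨ha, hb⟩
  · rintro ⟨ha, hb⟩
    exact ⟨a, b, ha, hb, rfl⟩

@[simp] theorem df_prd {s t : (ℕ → N) → N} (hs : DF s) (ht : DF t) :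
    DF fun v => prd (s v) (t v) :=
  df2 (F := prd) (by unfold prd; simp (maxDischargeDepth := 99)) hs ht

/-! ### Functions -/

/-- the domain of a relation -/
noncomputable def dm (f : N) : N := sep (uni (uni f)) fun x => ∃ y, op x y ∈ f

@[simp] theorem mem_dm {f x : N} : x ∈ dm f ↔ ∃ y, op x y ∈ f := by
  unfold dm
  rw [mem_sep (by simp (maxDischargeDepth := 99))]
  refine and_iff_right_of_imp ?_
  rintro ⟨y, h⟩
  rw [mem_uni]
  refine ⟨up x y, ?_, mem_up.2 (Or.inl rfl)⟩
  rw [mem_uni]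
  exact ⟨_, h, mem_up.2 (Or.inr rfl)⟩

@[simp] theorem df_dm {s : (ℕ → N) → N} (hs : DF s) : DF fun v => dm (s v) :=
  df1 (F := dm) (by unfold dm; simp (maxDischargeDepth := 99)) hs

/-- the range of a relation -/
noncomputable def rg (f : N) : N := sep (uni (uni f)) fun y => ∃ x, op x y ∈ f

@[simp] theorem mem_rg {f y : N} : y ∈ rg f ↔ ∃ x, op x y ∈ f := by
  unfold rg
  rw [mem_sep (by simp (maxDischargeDepth := 99))]
  refine and_iff_right_of_imp ?_
  rintro ⟨x, h⟩
  rw [mem_uni]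
  refine ⟨up x y, ?_, mem_up.2 (Or.inr rfl)⟩
  rw [mem_uni]
  exact ⟨_, h, mem_up.2 (Or.inr rfl)⟩

@[simp] theorem df_rg {s : (ℕ → N) → N} (hs : DF s) : DF fun v => rg (s v) :=
  df1 (F := rg) (by unfold rg; simp (maxDischargeDepth := 99)) hs

/-- the value of the function `f` at `x` -/
noncomputable def ap (f x : N) : N := the fun y => op x y ∈ f

@[simp] theorem df_ap {s t : (ℕ → N) → N} (hs : DF s) (ht : DF t) : DF fun v => ap (s v) (t v) :=
  df2 (F := ap) (by unfold ap; simp (maxDischargeDepth := 99)) hs ht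

/-- the function `z ↦ F z` with domain `x` -/
noncomputable def lam (x : N) (F : N → N) : N := img x fun z => op z (F z)

theorem mem_lam {F : N → N} (hF : DF fun v => F (v 0)) {x p : N} :
    p ∈ lam x F ↔ ∃ z, z ∈ x ∧ p = op z (F z) :=
  mem_img (F := fun z => op z (F z)) (df_op (df_var 0) hF)

@[simp] theorem df_lam {x : (ℕ → N) → N} {F : N → (ℕ → N) → N} (hx : DF x)
    (h : DF fun v => F (v 0) fun i => v (i + 1)) : DF fun v => lam (x v) fun z => F z v :=
  df_img hx (df_op (df_var 0) h)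

theorem op_mem_lam {F : N → N} (hF : DF fun v => F (v 0)) {x z w : N} :
    op z w ∈ lam x F ↔ z ∈ x ∧ w = F z := by
  rw [mem_lam hF]
  constructor
  · rintro ⟨z', hz, h⟩
    obtain ⟨rfl, rfl⟩ := op_inj.1 h
    exact ⟨hz, rfl⟩
  · rintro ⟨hz, rfl⟩
    exact ⟨z, hz, rfl⟩

theorem ap_lam {F : N → N} (hF : DF fun v => F (v 0)) {x z : N} (hz : z ∈ x) :
    ap (lam x F) z = F z :=
  the_eq ((op_mem_lam hF).2 ⟨hz, rfl⟩) fun _ h => ((op_mem_lam hF).1 h).2

theorem dm_lam {F : N → N} (hF : DF fun v => F (v 0)) {x : N} : dm (lam x F) = x :=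
  ext fun z => by
    rw [mem_dm]
    constructor
    · rintro ⟨y, h⟩
      exact ((op_mem_lam hF).1 h).1
    · intro h
      exact ⟨F z, (op_mem_lam hF).2 ⟨h, rfl⟩⟩

/-- `f` is a function with domain `a` -/
def IsF (f a : N) : Prop := f = lam a (ap f)

@[simp] theorem dfn_isF {s t : (ℕ → N) → N} (hs : DF s) (ht : DF t) : Dfn fun v => IsF (s v) (t v) :=
  dfn2 (P := IsF) (by unfold IsF; simp (maxDischargeDepth := 99)) hs ht

theorem df_ap_c (f : N) : DF fun v : ℕ → N => ap f (v 0) := df_ap (df_const f) (df_var 0)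

theorem isF_lam {F : N → N} (hF : DF fun v => F (v 0)) (x : N) : IsF (lam x F) x := by
  unfold IsF
  refine ext fun p => ?_
  rw [mem_lam hF, mem_lam (df_ap_c _)]
  constructor
  · rintro ⟨z, hz, rfl⟩
    exact ⟨z, hz, by rw [ap_lam hF hz]⟩
  · rintro ⟨z, hz, rfl⟩
    exact ⟨z, hz, by rw [ap_lam hF hz]⟩

theorem IsF.mem_iff {f a : N} (h : IsF f a) {p : N} : p ∈ f ↔ ∃ x, x ∈ a ∧ p = op x (ap f x) := by
  have h1 : p ∈ f ↔ p ∈ lam a (ap f) := by
    unfold IsF at h
    rw [← h]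
  rw [h1, mem_lam (df_ap_c _)]

theorem IsF.op_mem {f a x y : N} (h : IsF f a) : op x y ∈ f ↔ x ∈ a ∧ y = ap f x := by
  rw [h.mem_iff]
  constructor
  · rintro ⟨x', hx, h1⟩
    obtain ⟨rfl, rfl⟩ := op_inj.1 h1
    exact ⟨hx, rfl⟩
  · rintro ⟨hx, rfl⟩
    exact ⟨x, hx, rfl⟩

theorem IsF.dm {f a : N} (h : IsF f a) : dm f = a := ext fun z => by
  rw [mem_dm]
  simp only [h.op_mem]
  exact ⟨fun ⟨_, h, _⟩ => h, fun h => ⟨_, h, rfl⟩⟩

theorem IsF.mem_rg {f a y : N} (h : IsF f a) : y ∈ rg f ↔ ∃ x, x ∈ a ∧ y = ap f x := by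
  rw [ZU.mem_rg]
  simp only [h.op_mem]

theorem IsF.ext {f g a : N} (hf : IsF f a) (hg : IsF g a) (h : ∀ x, x ∈ a → ap f x = ap g x) :
    f = g := ZU.ext fun p => by
  rw [hf.mem_iff, hg.mem_iff]
  constructor
  · rintro ⟨x, hx, rfl⟩
    exact ⟨x, hx, by rw [h x hx]⟩
  · rintro ⟨x, hx, rfl⟩
    exact ⟨x, hx, by rw [h x hx]⟩

theorem lam_congr {F G : N → N} (hF : DF fun v => F (v 0)) (hG : DF fun v => G (v 0)) {x : N}
    (h : ∀ z, z ∈ x → F z = G z) : lam x F = lam x G := ZU.ext fun p => by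
  rw [mem_lam hF, mem_lam hG]
  constructor
  · rintro ⟨z, hz, rfl⟩
    exact ⟨z, hz, by rw [h z hz]⟩
  · rintro ⟨z, hz, rfl⟩
    exact ⟨z, hz, by rw [h z hz]⟩

theorem isF_iff {f a : N} : IsF f a ↔ IsFun ZM.E f a := by
  constructor
  · intro h
    refine ⟨fun p hp => ?_, fun x hx => ?_, fun x y z hy hz => ?_⟩
    · obtain ⟨x, hx, rfl⟩ := h.mem_iff.1 hp
      exact ⟨x, _, hx, isOP_iff.2 rfl⟩
    · exact ⟨ap f x, val_iff.2 (h.op_mem.2 ⟨hx, rfl⟩)⟩
    · rw [val_iff, h.op_mem] at hy hz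
      exact hy.2.trans hz.2.symm
  · rintro ⟨h1, h2, h3⟩
    have key : ∀ x y, op x y ∈ f → ap f x = y := fun x y h =>
      the_eq h fun z hz => h3 x z y (val_iff.2 hz) (val_iff.2 h)
    refine ZU.ext fun p => ?_
    rw [mem_lam (df_ap_c _)]
    constructor
    · intro hp
      obtain ⟨x, y, hx, h⟩ := h1 p hp
      rw [isOP_iff] at h
      subst h
      exact ⟨x, hx, by rw [key x y hp]⟩
    · rintro ⟨x, hx, rfl⟩
      obtain ⟨y, hy⟩ := h2 x hx
      rw [val_iff] at hy
      rwa [key x y hy]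

/-- the set of functions from `a` to `b` -/
noncomputable def fs (a b : N) : N :=
  sep (pw (prd a b)) fun f => IsF f a ∧ ∀ x, x ∈ a → ap f x ∈ b

@[simp] theorem mem_fs {a b f : N} : f ∈ fs a b ↔ IsF f a ∧ ∀ x, x ∈ a → ap f x ∈ b := by
  unfold fs
  rw [mem_sep (by simp (maxDischargeDepth := 99)), mem_pw]
  refine and_iff_right_of_imp ?_
  rintro ⟨h, h'⟩ p hp
  obtain ⟨x, hx, rfl⟩ := h.mem_iff.1 hp
  exact op_mem_prd.2 ⟨hx, h' x hx⟩

@[simp] theorem df_fs {s t : (ℕ → N) → N} (hs : DF s) (ht : DF t) : DF fun v => fs (s v) (t v) :=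
  df2 (F := fs) (by unfold fs; simp (maxDischargeDepth := 99)) hs ht

/-- restriction of a relation -/
noncomputable def res (f a : N) : N := sep f fun p => ∃ x y, x ∈ a ∧ p = op x y

theorem op_mem_res {f a x y : N} : op x y ∈ res f a ↔ x ∈ a ∧ op x y ∈ f := by
  unfold res
  rw [mem_sep (by simp (maxDischargeDepth := 99))]
  constructor
  · rintro ⟨h, x', y', hx, h'⟩
    obtain ⟨rfl, rfl⟩ := op_inj.1 h'
    exact ⟨hx, h⟩
  · rintro ⟨hx, h⟩
    exact ⟨h, x, y, hx, rfl⟩

@[simp] theorem df_res {s t : (ℕ → N) → N} (hs : DF s) (ht : DF t) : DF fun v => res (s v) (t v) :=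
  df2 (F := res) (by unfold res; simp (maxDischargeDepth := 99)) hs ht

theorem ap_res {f a x : N} (hx : x ∈ a) : ap (res f a) x = ap f x := by
  have : (fun y => op x y ∈ res f a) = fun y => op x y ∈ f := by
    funext y
    rw [op_mem_res]
    exact propext (and_iff_right hx)
  unfold ap
  rw [this]

theorem IsF.res {f a b : N} (h : IsF f a) (hb : b ⊆ a) : res f b = lam b (ap f) :=
  ZU.ext fun p => by
    rw [mem_lam (df_ap_c _)]
    unfold ZU.res
    rw [mem_sep (by simp (maxDischargeDepth := 99))]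
    constructor
    · rintro ⟨hp, x, y, hx, rfl⟩
      rw [h.op_mem] at hp
      exact ⟨x, hx, by rw [hp.2]⟩
    · rintro ⟨x, hx, rfl⟩
      exact ⟨h.op_mem.2 ⟨hb x hx, rfl⟩, x, _, hx, rfl⟩

end ZU
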